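import Pool.Agent.H71.Col.Red
import Pool.Agent.H16.Col.Dyn

set_option autoImplicit false

namespace Pool.H71.Bridge

open Pool.H71.Red (St.ext' Cs Ts x0 Cs_f_succ Ts_f_even Ts_f_odd Fw_nonneg_of)

/-- dictionary between the two conventions -/
noncomputable def conv (s : H16Col.St) : Pool.H71.Red.St where
  F := s.F
  f := fun k => if k % 2 = 0 then (-1 : ℝ) ^ (k / 2) * s.a (k / 2)
    else (-1 : ℝ) ^ ((k + 1) / 2) * s.b ((k + 1) / 2)
  g := fun j => if j = 0 then 0 else s.g j

theorem conv_even (s : H16Col.St) (j : ℕ) : (conv s).f (2 * j) = (-1 : ℝ) ^ j * s.a j := by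
  have h1 : (2 * j) % 2 = 0 := by omega
  have h2 : (2 * j) / 2 = j := by omega
  simp only [conv, h1, h2, if_true]

theorem conv_odd (s : H16Col.St) (j : ℕ) :
    (conv s).f (2 * j + 1) = (-1 : ℝ) ^ (j + 1) * s.b (j + 1) := by
  have h1 : (2 * j + 1) % 2 = 1 := by omega
  have h2 : (2 * j + 1 + 1) / 2 = j + 1 := by omega
  simp [conv, h1, h2]

theorem conv_C (s : H16Col.St) : conv (H16Col.stC s) = Cs (conv s) := by
  apply St.ext'
  · simp [conv, H16Col.stC, Cs]
  · intro k
    rcases k with _ | k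
    · simp [conv, H16Col.stC, Cs]
    rw [Cs_f_succ]
    obtain ⟨j, rfl | rfl⟩ : ∃ j, k = 2 * j ∨ k = 2 * j + 1 := ⟨k / 2, by omega⟩
    · rw [conv_odd, conv_even, show 2 * j + 2 = 2 * (j + 1) by ring, conv_even]
      have : (-1 : ℝ) ^ (2 * j) = 1 := by rw [pow_mul]; norm_num
      rw [this]
      simp only [H16Col.stC, Nat.add_eq_zero_iff, one_ne_zero, and_false, if_false,
        Nat.add_sub_cancel]
      ring
    · rw [show 2 * j + 1 + 1 = 2 * (j + 1) by ring, show 2 * j + 1 + 2 = 2 * (j + 1) + 1 by ring,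
        conv_even, conv_odd, conv_odd]
      have : (-1 : ℝ) ^ (2 * j + 1) = -1 := by rw [pow_succ, pow_mul]; norm_num
      rw [this]
      simp only [H16Col.stC, Nat.add_eq_zero_iff, one_ne_zero, and_false, if_false]
      ring
  · intro j
    rcases j with _ | _ | j
    · simp [conv, Cs]
    · simp [conv, H16Col.stC, Cs]; ring
    · simp [conv, H16Col.stC, Cs]

theorem conv_T (s : H16Col.St) : conv (H16Col.stT s) = Ts (conv s) := by
  apply St.ext'
  · simp [conv, H16Col.stT, Ts]
  · intro k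
    rcases k with _ | _ | k
    · simp [conv, H16Col.stT, Ts]
    · have h := conv_odd (H16Col.stT s) 0
      have h0 := conv_even s 0
      have h1 := conv_even s 1
      simp only [mul_zero, zero_add, mul_one] at h h0 h1
      simp only [zero_add]
      rw [h]
      simp only [Ts]
      norm_num
      rw [h0, h1]
      simp [H16Col.stT, conv]
      ring
    obtain ⟨j, rfl | rfl⟩ : ∃ j, k = 2 * j ∨ k = 2 * j + 1 := ⟨k / 2, by omega⟩
    · rw [Ts_f_even, show 2 * j + 1 + 1 = 2 * (j + 1) by ring, conv_even]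
      simp only [H16Col.stT, conv, Nat.add_eq_zero_iff, one_ne_zero, and_false, if_false,
        OfNat.ofNat_ne_zero]
      have e4 : (-1 : ℝ) ^ (j + 1) * (-1 : ℝ) ^ (j + 1) = 1 := by
        rw [← mul_pow]; norm_num
      linear_combination (-(s.g (j + 1) + s.g (j + 1 + 1)) / 2) * e4
    · rw [show 2 * j + 1 + 1 + 1 = 2 * j + 3 by ring, Ts_f_odd,
        show 2 * j + 3 = 2 * (j + 1) + 1 by ring, show 2 * j + 4 = 2 * (j + 2) by ring,
        show 2 * j + 2 = 2 * (j + 1) by ring, conv_odd, conv_even, conv_even]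
      simp only [H16Col.stT, Nat.add_eq_zero_iff, one_ne_zero, and_false, if_false,
        Nat.add_sub_cancel, show ¬ (j + 1 + 1 = 1) by omega, sub_zero]
      have e4 : (-1 : ℝ) ^ (j + 1) * (-1 : ℝ) ^ (j + 1) = 1 := by
        rw [← mul_pow]; norm_num
      have e5 : (-1 : ℝ) ^ (j + 1 + 1) * (-1 : ℝ) ^ (j + 1 + 1) = 1 := by
        rw [← mul_pow]; norm_num
      have e6 : (-1 : ℝ) ^ (j + 1) * (-1 : ℝ) ^ (j + 2) = -1 := by
        rw [← pow_add, show j + 1 + (j + 2) = 2 * (j + 1) + 1 by ring, pow_succ, pow_mul]; norm_num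
      linear_combination (-(s.a (j + 1 + 1) + s.a (j + 1)) / 2) * e5
        - (s.a (j + 2) / 2) * e6 + (s.a (j + 1) / 2) * e4
  · intro j
    rcases j with _ | _ | j
    · simp [conv, Ts]
    · have h := conv_odd s 0
      simp only [mul_zero, zero_add] at h
      simp [conv, H16Col.stT, Ts]
      ring
    · have h := conv_odd s (j + 1)
      have : (Ts (conv s)).g (j + 1 + 1) = (-1 : ℝ) ^ (j + 1 + 1) * (conv s).f (2 * (j + 1) + 1) := by
        simp only [Ts, Nat.add_eq_zero_iff, one_ne_zero, and_false, if_false,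
          show ¬ (j + 1 + 1 = 1) by omega]
        congr 2
      rw [this, h]
      simp only [conv, H16Col.stT, Nat.add_eq_zero_iff, one_ne_zero, and_false, if_false,
          show ¬ (j + 1 + 1 = 1) by omega, add_zero]
      have e5 : (-1 : ℝ) ^ (j + 1 + 1) * (-1 : ℝ) ^ (j + 1 + 1) = 1 := by
        rw [← mul_pow]; norm_num
      linear_combination (-s.b (j + 1 + 1)) * e5

theorem conv_st0 : conv H16Col.st0 = x0 := by
  apply St.ext'
  · simp [conv, H16Col.st0, x0]
  · intro k
    rcases k with _ | _ | _ | _ | k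
    · simp [conv, H16Col.st0, x0]
    · simp [conv, H16Col.st0, x0]; norm_num
    · simp [conv, H16Col.st0, x0]
    · simp [conv, H16Col.st0, x0]
    obtain ⟨j, rfl | rfl⟩ : ∃ j, k = 2 * j ∨ k = 2 * j + 1 := ⟨k / 2, by omega⟩
    · rw [show 2 * j + 1 + 1 + 1 + 1 = 2 * (j + 2) by ring, conv_even]
      have h1 : ¬ (2 * (j + 2) = 1) := by omega
      have h2 : ¬ (2 * (j + 2) = 2) := by omega
      have h3 : ¬ (2 * (j + 2) = 3) := by omega
      have h4 : ¬ (j + 2 = 1) := by omega
      simp [H16Col.st0, x0, h1, h2, h3]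
    · rw [show 2 * j + 1 + 1 + 1 + 1 + 1 = 2 * (j + 2) + 1 by ring, conv_odd]
      simp [H16Col.st0, x0]
  · intro j
    rcases j with _ | j
    · simp [conv, x0]
    · simp [conv, H16Col.st0, x0]

/-- positivity of all weights from positivity of helper16's scalar dynamics -/
theorem Fw_nonneg_of_run (h : ∀ l : List Bool, 0 < (H16Col.run l).F) :
    ∀ w, 0 ≤ H82Col.Fw w := by
  apply Fw_nonneg_of {x | ∃ l : List Bool, x = conv (H16Col.run l)}
  · exact ⟨[], by rw [show H16Col.run [] = H16Col.st0 from rfl, conv_st0]⟩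
  · rintro x ⟨l, rfl⟩
    exact ⟨false :: l, by rw [← conv_C]; rfl⟩
  · rintro x ⟨l, rfl⟩
    exact ⟨true :: l, by rw [← conv_T]; rfl⟩
  · rintro x ⟨l, rfl⟩
    exact (h l).le

end Pool.H71.Bridge
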