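import Pool.Agent.H82.Col.Defs

set_option autoImplicit false

namespace Pool.H71.HL

open H82Col (IsWeight)

/-- sum of `f` over all deletions of one letter -/
def delSum (f : List (Fin 3) → ℕ) : List (Fin 3) → ℕ
  | [] => 0
  | x :: w => f w + delSum (fun w' => f (x :: w')) w

lemma delSum_append (f : List (Fin 3) → ℕ) (u v : List (Fin 3)) :
    delSum f (u ++ v) = delSum (fun u' => f (u' ++ v)) u + delSum (fun v' => f (u ++ v')) v := by
  induction u generalizing f with
  | nil => simp [delSum]
  | cons x u ih =>
    simp only [List.cons_append, delSum]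
    rw [ih]
    ring

lemma delSum_congr {f g : List (Fin 3) → ℕ} (w : List (Fin 3))
    (h : ∀ u, u.length + 1 = w.length → f u = g u) : delSum f w = delSum g w := by
  induction w generalizing f g with
  | nil => rfl
  | cons x w ih =>
    simp only [delSum]
    rw [h w (by simp)]
    congr 1
    apply ih
    intro u hu
    exact h _ (by simp [hu])

lemma delSum_zero (w : List (Fin 3)) : delSum (fun _ => 0) w = 0 := by
  induction w with
  | nil => rfl
  | cons x w ih => simp [delSum, ih]

lemma delSum_add (f g : List (Fin 3) → ℕ) (w : List (Fin 3)) :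
    delSum (fun u => f u + g u) w = delSum f w + delSum g w := by
  induction w generalizing f g with
  | nil => rfl
  | cons x w ih => simp only [delSum]; rw [ih]; ring

lemma delSum_mul (c : ℕ) (f : List (Fin 3) → ℕ) (w : List (Fin 3)) :
    delSum (fun u => c * f u) w = c * delSum f w := by
  induction w generalizing f with
  | nil => rfl
  | cons x w ih => simp only [delSum]; rw [ih]; ring

lemma delSum_mul_right (c : ℕ) (f : List (Fin 3) → ℕ) (w : List (Fin 3)) :
    delSum (fun u => f u * c) w = delSum f w * c := by
  induction w generalizing f with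
  | nil => simp [delSum]
  | cons x w ih => simp only [delSum]; rw [ih]; ring

lemma delSum_sum {ι : Type*} (s : Finset ι) (f : ι → List (Fin 3) → ℕ) (w : List (Fin 3)) :
    delSum (fun u => ∑ i ∈ s, f i u) w = ∑ i ∈ s, delSum (f i) w := by
  classical
  induction s using Finset.induction_on with
  | empty => simp [delSum_zero]
  | insert i s hi ih =>
    rw [Finset.sum_insert hi, ← ih, ← delSum_add]
    congr 1
    funext u
    rw [Finset.sum_insert hi]

lemma delSum_reverse (f : List (Fin 3) → ℕ) (w : List (Fin 3)) :
    delSum f w.reverse = delSum (fun u => f u.reverse) w := by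
  induction w generalizing f with
  | nil => rfl
  | cons x w ih =>
    rw [List.reverse_cons, delSum_append, ih]
    simp only [delSum, List.append_nil, List.reverse_cons]
    ring

/-- the number of ways to build `w` -/
def Bn : ℕ → List (Fin 3) → ℕ
  | 0, w => if w = [] then 1 else 0
  | n + 1, w => if w.IsChain (· ≠ ·) then delSum (Bn n) w else 0

def B (w : List (Fin 3)) : ℕ := Bn w.length w

lemma B_nil : B [] = 1 := rfl

lemma B_improper {w : List (Fin 3)} (h : ¬ w.IsChain (· ≠ ·)) : B w = 0 := by
  unfold B
  cases w with
  | nil => exact absurd List.isChain_nil h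
  | cons x w => simp only [List.length_cons, Bn]; rw [if_neg h]

lemma B_proper {w : List (Fin 3)} (h : w.IsChain (· ≠ ·)) (hw : w ≠ []) : B w = delSum B w := by
  cases w with
  | nil => exact absurd rfl hw
  | cons x w =>
    have : B (x :: w) = delSum (Bn w.length) (x :: w) := by
      unfold B
      simp only [List.length_cons, Bn]
      rw [if_pos h]
    rw [this]
    apply delSum_congr
    intro u hu
    have : w.length = u.length := by simp at hu; omega
    rw [this]; rfl

lemma isChain_reverse_ne (w : List (Fin 3)) :
    w.reverse.IsChain (· ≠ ·) ↔ w.IsChain (· ≠ ·) := by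
  rw [List.isChain_reverse]
  simp [ne_comm]

lemma B_reverse (w : List (Fin 3)) : B w.reverse = B w := by
  induction hn : w.length generalizing w with
  | zero =>
    have : w = [] := List.length_eq_zero_iff.1 hn
    subst this; rfl
  | succ n ih =>
    have hw : w ≠ [] := by rintro rfl; simp at hn
    by_cases h : w.IsChain (· ≠ ·)
    · rw [B_proper ((isChain_reverse_ne w).2 h) (by simpa using hw), B_proper h hw,
        delSum_reverse]
      apply delSum_congr
      intro u hu
      exact ih u (by omega)
    · rw [B_improper h, B_improper (fun h' => h ((isChain_reverse_ne w).1 h'))]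

lemma B_mid (u v : List (Fin 3)) (a : Fin 3) : B (u ++ a :: a :: v) = 0 := by
  apply B_improper
  rw [List.isChain_append]
  rintro ⟨-, h, -⟩
  rw [List.isChain_cons_cons] at h
  exact h.1 rfl

lemma B_left_improper {u : List (Fin 3)} (h : ¬ u.IsChain (· ≠ ·)) (v : List (Fin 3)) :
    B (u ++ v) = 0 := by
  apply B_improper
  rw [List.isChain_append]
  rintro ⟨h', -, -⟩
  exact h h'

lemma B_right_improper {v : List (Fin 3)} (h : ¬ v.IsChain (· ≠ ·)) (u : List (Fin 3)) :
    B (u ++ v) = 0 := by
  apply B_improper
  rw [List.isChain_append]
  rintro ⟨-, h', -⟩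
  exact h h'

lemma right_pt (w : List (Fin 3)) (z x : Fin 3) (hw : (w ++ [z]).IsChain (· ≠ ·)) :
    B (w ++ [z] ++ [x]) + (if x = z then 2 * B (w ++ [z]) else 0)
      = delSum (fun u => B (u ++ [x])) (w ++ [z]) + B (w ++ [z]) := by
  by_cases hx : x = z
  · subst hx
    rw [if_pos rfl, delSum_append]
    have h1 : ∀ u : List (Fin 3), B (u ++ [x] ++ [x]) = 0 := fun u => by
      have := B_mid u [] x
      simpa using this
    simp only [h1, delSum_zero, delSum, List.append_nil]
    ring
  · rw [if_neg hx, add_zero, B_proper, delSum_append]
    · simp [delSum]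
    · rw [List.isChain_append]
      refine ⟨hw, List.isChain_singleton _, ?_⟩
      simp [Ne.symm hx]
    · simp

lemma right_sum (w : List (Fin 3)) : ∑ x, B (w ++ [x]) = (w.length + 3) * B w := by
  induction hn : w.length generalizing w with
  | zero =>
    have : w = [] := List.length_eq_zero_iff.1 hn
    subst this
    decide
  | succ n ih =>
    by_cases hw : w.IsChain (· ≠ ·)
    · have hne : w ≠ [] := by rintro rfl; simp at hn
      obtain ⟨w', z, rfl⟩ : ∃ w' z, w = w' ++ [z] := ⟨w.dropLast, w.getLast hne,
        (List.dropLast_append_getLast hne).symm⟩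
      have h1 : ∑ x, (B (w' ++ [z] ++ [x]) + (if x = z then 2 * B (w' ++ [z]) else 0))
          = ∑ x, (delSum (fun u => B (u ++ [x])) (w' ++ [z]) + B (w' ++ [z])) :=
        Finset.sum_congr rfl (fun x _ => right_pt w' z x hw)
      rw [Finset.sum_add_distrib, Finset.sum_add_distrib, ← delSum_sum] at h1
      have h2 : delSum (fun u => ∑ x, B (u ++ [x])) (w' ++ [z])
          = (n + 3) * B (w' ++ [z]) := by
        rw [B_proper hw hne, ← delSum_mul]
        apply delSum_congr
        intro u hu
        exact ih u (by omega)
      rw [h2] at h1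
      simp only [Finset.sum_ite_eq', Finset.mem_univ, if_true, Finset.sum_const,
        Finset.card_univ, Fintype.card_fin, smul_eq_mul] at h1
      linarith
    · rw [B_improper hw, mul_zero]
      exact Finset.sum_eq_zero (fun x _ => B_left_improper hw _)

lemma left_sum (w : List (Fin 3)) : ∑ x, B (x :: w) = (w.length + 3) * B w := by
  have := right_sum w.reverse
  rw [List.length_reverse, B_reverse] at this
  rw [← this]
  refine Finset.sum_congr rfl (fun x _ => ?_)
  rw [← B_reverse (x :: w)]
  simp

lemma dep_pt (u v : List (Fin 3)) (a b s t : Fin 3) (hu : (u ++ [a]).IsChain (· ≠ ·))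
    (hv : (b :: v).IsChain (· ≠ ·)) :
    B (u ++ [a] ++ s :: t :: b :: v) + (if s = a then 2 * B (u ++ [a] ++ t :: b :: v) else 0)
      + (if s = t then 2 * B (u ++ [a] ++ s :: b :: v) else 0)
      + (if t = b then 2 * B (u ++ [a] ++ s :: b :: v) else 0)
    = delSum (fun u1 => B (u1 ++ s :: t :: b :: v)) (u ++ [a]) + B (u ++ [a] ++ t :: b :: v)
      + B (u ++ [a] ++ s :: b :: v) + delSum (fun v1 => B (u ++ [a] ++ s :: t :: v1)) (b :: v) := by
  by_cases hs : s = a
  · subst hs
    rw [if_pos rfl, delSum_append]
    have h1 : ∀ (u w : List (Fin 3)), B (u ++ [s] ++ s :: w) = 0 := fun u w => by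
      have := B_mid u w s
      simpa using this
    simp only [h1, delSum_zero, delSum, List.append_nil]
    split_ifs <;> simp [two_mul]
  by_cases hst : s = t
  · subst hst
    have h1 : ∀ (u w : List (Fin 3)), B (u ++ s :: s :: w) = 0 := fun u w => B_mid u w s
    by_cases hb : s = b
    · subst hb
      simp only [h1, delSum_zero, delSum, if_neg hs]
      simp
    · simp only [h1, delSum_zero, if_neg hs, if_neg hb, if_true]
      ring
  by_cases htb : t = b
  · subst htb
    have h1 : ∀ (u w : List (Fin 3)), B (u ++ t :: t :: w) = 0 := fun u w => B_mid u w t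
    have h2 : ∀ (u w : List (Fin 3)), B (u ++ s :: t :: t :: w) = 0 := fun u w => by
      have := B_mid (u ++ [s]) w t
      simpa using this
    simp only [h1, h2, delSum_zero, delSum, if_neg hs, if_neg hst, if_true]
    ring
  · rw [if_neg hs, if_neg hst, if_neg htb, add_zero, add_zero, add_zero, B_proper, delSum_append]
    · simp only [delSum]
      ring
    · rw [List.isChain_append]
      refine ⟨hu, ?_, ?_⟩
      · rw [List.isChain_cons_cons, List.isChain_cons_cons]
        exact ⟨hst, htb, hv⟩
      · simp [Ne.symm hs]
    · simp

lemma dep_sum (N : ℕ) : ∀ (u v : List (Fin 3)), u.length + v.length = N →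
    ∑ s, ∑ t, B (u ++ s :: t :: v)
      = 2 * Nat.choose (u.length + v.length + 4) (u.length + 2) * B u * B v := by
  induction N with
  | zero =>
    intro u v h
    have hu : u = [] := List.length_eq_zero_iff.1 (by omega)
    have hv : v = [] := List.length_eq_zero_iff.1 (by omega)
    subst hu; subst hv
    decide
  | succ N ih =>
    intro u v hN
    by_cases hu : u.IsChain (· ≠ ·)
    swap
    · rw [B_improper hu]
      simp only [mul_zero, zero_mul]
      exact Finset.sum_eq_zero (fun s _ => Finset.sum_eq_zero (fun t _ => B_left_improper hu _))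
    by_cases hv : v.IsChain (· ≠ ·)
    swap
    · rw [B_improper hv, mul_zero]
      refine Finset.sum_eq_zero (fun s _ => Finset.sum_eq_zero (fun t _ => ?_))
      have := B_right_improper hv (u ++ [s, t])
      simpa using this
    rcases List.eq_nil_or_concat u with rfl | ⟨u', a, rfl⟩
    · -- u = []
      simp only [List.nil_append, List.length_nil, zero_add, B_nil, mul_one]
      have h1 : ∑ s, ∑ t, B (s :: t :: v) = (v.length + 4) * ((v.length + 3) * B v) := by
        rw [Finset.sum_comm]
        have : ∀ t : Fin 3, ∑ s, B (s :: t :: v) = (v.length + 4) * B (t :: v) := fun t => by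
          rw [left_sum]; simp only [List.length_cons]
        simp_rw [this]
        rw [← Finset.mul_sum, left_sum]
      rw [h1]
      have h2 : 2 * Nat.choose (v.length + 4) 2 = (v.length + 4) * (v.length + 3) := by
        rw [Nat.choose_two_right]
        have : Even ((v.length + 4) * (v.length + 4 - 1)) := by
          exact Nat.even_mul_pred_self _
        rw [Nat.mul_div_cancel' this.two_dvd]
        rfl
      rw [h2]; ring
    rcases v with _ | ⟨b, v⟩
    · -- v = []
      simp only [List.length_nil, add_zero, B_nil, mul_one]
      set w := u' ++ [a] with hw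
      have h1 : ∑ s, ∑ t, B (w ++ s :: [t]) = (w.length + 4) * ((w.length + 3) * B w) := by
        have : ∀ s : Fin 3, ∑ t, B (w ++ s :: [t]) = (w.length + 4) * B (w ++ [s]) := fun s => by
          have := right_sum (w ++ [s])
          simp only [List.append_assoc, List.singleton_append, List.length_append,
            List.length_singleton] at this
          rw [this]
        simp_rw [this]
        rw [← Finset.mul_sum, right_sum]
      have e : w = u'.concat a := by rw [hw, List.concat_eq_append]
      rw [← e, h1]
      have h2 : 2 * Nat.choose (w.length + 4) (w.length + 2) = (w.length + 4) * (w.length + 3) := by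
        rw [← Nat.choose_symm_of_eq_add (n := w.length + 4) (a := 2) (b := w.length + 2) (by ring),
          Nat.choose_two_right]
        have : Even ((w.length + 4) * (w.length + 4 - 1)) := by
          exact Nat.even_mul_pred_self _
        rw [Nat.mul_div_cancel' this.two_dvd]
        rfl
      rw [h2]; ring
    · -- main case
      rw [List.concat_eq_append] at hu hN ⊢
      have h1 : ∑ s, ∑ t, (B (u' ++ [a] ++ s :: t :: b :: v)
            + (if s = a then 2 * B (u' ++ [a] ++ t :: b :: v) else 0)
            + (if s = t then 2 * B (u' ++ [a] ++ s :: b :: v) else 0)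
            + (if t = b then 2 * B (u' ++ [a] ++ s :: b :: v) else 0))
          = ∑ s, ∑ t, (delSum (fun u1 => B (u1 ++ s :: t :: b :: v)) (u' ++ [a])
            + B (u' ++ [a] ++ t :: b :: v) + B (u' ++ [a] ++ s :: b :: v)
            + delSum (fun v1 => B (u' ++ [a] ++ s :: t :: v1)) (b :: v)) :=
        Finset.sum_congr rfl (fun s _ => Finset.sum_congr rfl (fun t _ => dep_pt u' v a b s t hu hv))
      simp only [Finset.sum_add_distrib] at h1
      have h2 : ∑ s, ∑ t, delSum (fun u1 => B (u1 ++ s :: t :: b :: v)) (u' ++ [a])
          = 2 * Nat.choose (u'.length + 1 + (v.length + 1) + 3) (u'.length + 2) * B (u' ++ [a])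
            * B (b :: v) := by
        simp_rw [← delSum_sum]
        rw [B_proper hu (by simp)]
        rw [mul_assoc, mul_comm (delSum B _) _, ← mul_assoc, ← delSum_mul]
        apply delSum_congr
        intro w hw
        simp only [List.length_append, List.length_singleton] at hw hN
        have hN' := hN
        rw [List.length_cons] at hN'
        rw [ih w (b :: v) (by rw [List.length_cons]; omega)]
        have : w.length = u'.length := by omega
        rw [List.length_cons, this]
        have e1 : u'.length + (v.length + 1) + 4 = u'.length + 1 + (v.length + 1) + 3 := by ring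
        rw [e1]; ring
      have h3 : ∑ s, ∑ t, delSum (fun v1 => B (u' ++ [a] ++ s :: t :: v1)) (b :: v)
          = 2 * Nat.choose (u'.length + 1 + (v.length + 1) + 3) (u'.length + 3) * B (u' ++ [a])
            * B (b :: v) := by
        simp_rw [← delSum_sum]
        rw [B_proper hv (by simp), ← delSum_mul]
        apply delSum_congr
        intro w hw
        simp only [List.length_cons] at hw
        rw [List.length_cons, List.length_append, List.length_singleton] at hN
        rw [ih (u' ++ [a]) w (by rw [List.length_append, List.length_singleton]; omega)]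
        have : w.length = v.length := by omega
        rw [List.length_append, List.length_singleton, this,
          show u'.length + 1 + v.length + 4 = u'.length + 1 + (v.length + 1) + 3 by ring]
      rw [h2, h3] at h1
      have h4 : ∑ s : Fin 3, ∑ t : Fin 3, (if s = a then 2 * B (u' ++ [a] ++ t :: b :: v) else 0)
          = 2 * ∑ t, B (u' ++ [a] ++ t :: b :: v) := by
        rw [Finset.sum_comm]
        simp [Finset.mul_sum]
      have h5 : ∑ s : Fin 3, ∑ t : Fin 3, (if s = t then 2 * B (u' ++ [a] ++ s :: b :: v) else 0)
          = 2 * ∑ t, B (u' ++ [a] ++ t :: b :: v) := by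
        simp [Finset.mul_sum]
      have h6 : ∑ s : Fin 3, ∑ t : Fin 3, (if t = b then 2 * B (u' ++ [a] ++ s :: b :: v) else 0)
          = 2 * ∑ t, B (u' ++ [a] ++ t :: b :: v) := by
        simp [Finset.mul_sum]
      have h7 : ∑ _s : Fin 3, ∑ t : Fin 3, B (u' ++ [a] ++ t :: b :: v)
          = 3 * ∑ t, B (u' ++ [a] ++ t :: b :: v) := by
        simp
      have h8 : ∑ s : Fin 3, ∑ _t : Fin 3, B (u' ++ [a] ++ s :: b :: v)
          = 3 * ∑ t, B (u' ++ [a] ++ t :: b :: v) := by
        simp [Finset.mul_sum]
      rw [h4, h5, h6, h7, h8] at h1
      have h9 : Nat.choose ((u' ++ [a]).length + (b :: v).length + 4) ((u' ++ [a]).length + 2)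
          = Nat.choose (u'.length + 1 + (v.length + 1) + 3) (u'.length + 2)
            + Nat.choose (u'.length + 1 + (v.length + 1) + 3) (u'.length + 3) := by
        rw [List.length_append, List.length_singleton, List.length_cons]
        exact Nat.choose_succ_succ _ _
      rw [h9]
      have h10 : 2 * (Nat.choose (u'.length + 1 + (v.length + 1) + 3) (u'.length + 2)
            + Nat.choose (u'.length + 1 + (v.length + 1) + 3) (u'.length + 3)) * B (u' ++ [a])
            * B (b :: v)
          = 2 * Nat.choose (u'.length + 1 + (v.length + 1) + 3) (u'.length + 2) * B (u' ++ [a])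
            * B (b :: v)
          + 2 * Nat.choose (u'.length + 1 + (v.length + 1) + 3) (u'.length + 3) * B (u' ++ [a])
            * B (b :: v) := by ring
      rw [h10]
      omega

/-- the Holroyd-Liggett weight -/
noncomputable def phiHL (w : List (Fin 3)) : ℝ := 2 * (B w : ℝ) / (Nat.factorial (w.length + 2) : ℝ)

theorem isWeight_phiHL : IsWeight phiHL where
  nonneg w := by unfold phiHL; positivity
  nil := by simp [phiHL, B_nil]
  right w := by
    unfold phiHL
    have h := right_sum w
    have h' : (∑ x, (B (w ++ [x]) : ℝ)) = (w.length + 3) * (B w : ℝ) := by exact_mod_cast h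
    simp only [List.length_append, List.length_singleton]
    rw [← Finset.sum_div, ← Finset.mul_sum, h']
    have hf : (Nat.factorial (w.length + 1 + 2) : ℝ)
        = (w.length + 3) * (Nat.factorial (w.length + 2) : ℝ) := by
      rw [show w.length + 1 + 2 = (w.length + 2) + 1 by ring, Nat.factorial_succ]
      push_cast; ring
    rw [hf]
    have h1 : (w.length + 3 : ℝ) ≠ 0 := by positivity
    have h2 : (Nat.factorial (w.length + 2) : ℝ) ≠ 0 := by positivity
    field_simp
  left w := by
    unfold phiHL
    have h := left_sum w
    have h' : (∑ x, (B (x :: w) : ℝ)) = (w.length + 3) * (B w : ℝ) := by exact_mod_cast h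
    simp only [List.length_cons]
    rw [← Finset.sum_div, ← Finset.mul_sum, h']
    have hf : (Nat.factorial (w.length + 1 + 2) : ℝ)
        = (w.length + 3) * (Nat.factorial (w.length + 2) : ℝ) := by
      rw [show w.length + 1 + 2 = (w.length + 2) + 1 by ring, Nat.factorial_succ]
      push_cast; ring
    rw [hf]
    have h1 : (w.length + 3 : ℝ) ≠ 0 := by positivity
    have h2 : (Nat.factorial (w.length + 2) : ℝ) ≠ 0 := by positivity
    field_simp
  proper u x v := by unfold phiHL; rw [B_mid]; simp
  dep u v := by
    unfold phiHL
    have h := dep_sum _ u v rfl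
    have h' : (∑ s, ∑ t, (B (u ++ s :: t :: v) : ℝ))
        = 2 * (Nat.choose (u.length + v.length + 4) (u.length + 2) : ℝ) * B u * B v := by
      exact_mod_cast h
    simp only [List.length_append, List.length_cons]
    simp_rw [← Finset.sum_div, ← Finset.mul_sum]
    rw [h']
    have e : u.length + (v.length + 1 + 1) + 2 = u.length + v.length + 4 := by ring
    rw [e]
    have hc := Nat.add_choose_mul_factorial_mul_factorial (u.length + 2) (v.length + 2)
    have e2 : u.length + 2 + (v.length + 2) = u.length + v.length + 4 := by ring
    rw [e2, Nat.choose_symm_of_eq_add (n := u.length + v.length + 4) (a := v.length + 2)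
      (b := u.length + 2) (by ring)] at hc
    have hc' : (Nat.choose (u.length + v.length + 4) (u.length + 2) : ℝ)
        * (Nat.factorial (u.length + 2) : ℝ) * (Nat.factorial (v.length + 2) : ℝ)
        = (Nat.factorial (u.length + v.length + 4) : ℝ) := by exact_mod_cast hc
    have h1 : (Nat.factorial (u.length + 2) : ℝ) ≠ 0 := by positivity
    have h2 : (Nat.factorial (v.length + 2) : ℝ) ≠ 0 := by positivity
    have h3 : (Nat.factorial (u.length + v.length + 4) : ℝ) ≠ 0 := by positivity
    rw [← hc'] at h3 ⊢
    have h4 : (Nat.choose (u.length + v.length + 4) (u.length + 2) : ℝ) ≠ 0 :=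
      left_ne_zero_of_mul (left_ne_zero_of_mul h3)
    field_simp

theorem phiHL_010 : phiHL [0, 1, 0] = 1 / 15 := by
  have h : B [0, 1, 0] = 4 := by decide
  unfold phiHL
  rw [h]
  simp [Nat.factorial]
  norm_num

end Pool.H71.HL
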