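import Pool.Agent.H82.Col.Defs

set_option autoImplicit false
open MeasureTheory ProbabilityTheory Filter Topology

namespace Pool.H71.Kol

abbrev Om := ℤ → Fin 3

/-- pattern set -/
def pat (S : Finset ℤ) (y : Om) : Set Om := {x | ∀ i ∈ S, x i = y i}

lemma pat_eq_biInter (S : Finset ℤ) (y : Om) :
    pat S y = ⋂ i ∈ S, (fun x : Om => x i) ⁻¹' {y i} := by
  ext x; simp [pat]

lemma measurableSet_pat (S : Finset ℤ) (y : Om) : MeasurableSet (pat S y) := by
  rw [pat_eq_biInter]
  exact Finset.measurableSet_biInter _ (fun i _ => measurable_pi_apply i (measurableSet_singleton _))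

lemma isClopen_pat (S : Finset ℤ) (y : Om) : IsClopen (pat S y) := by
  rw [pat_eq_biInter]
  exact S.finite_toSet.isClopen_biInter
    (fun i _ => (isClopen_discrete ({y i} : Set (Fin 3))).preimage (continuous_apply i))

lemma pat_congr {S : Finset ℤ} {y z : Om} (h : ∀ i ∈ S, y i = z i) : pat S y = pat S z := by
  ext x
  simp only [pat, Set.mem_ofPred_eq]
  exact ⟨fun hx i hi => (hx i hi).trans (h i hi), fun hx i hi => (hx i hi).trans (h i hi).symm⟩

lemma pat_union (S T : Finset ℤ) (y : Om) : pat (S ∪ T) y = pat S y ∩ pat T y := by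
  ext x
  simp only [pat, Set.mem_ofPred_eq, Finset.mem_union, Set.mem_inter_iff]
  constructor
  · intro h; exact ⟨fun i hi => h i (Or.inl hi), fun i hi => h i (Or.inr hi)⟩
  · rintro ⟨h1, h2⟩ i (hi | hi)
    · exact h1 i hi
    · exact h2 i hi

lemma pat_empty (y : Om) : pat ∅ y = Set.univ := by
  ext x; simp [pat]

lemma measure_pat_inter (ν : Measure Om) {S : Finset ℤ} {i : ℤ} (hi : i ∉ S) (y : Om)
    {E : Set Om} (hE : MeasurableSet E) :
    ν (pat S y ∩ E) = ∑ c, ν (pat (insert i S) (Function.update y i c) ∩ E) := by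
  have h1 : pat S y ∩ E = ⋃ c, (pat (insert i S) (Function.update y i c) ∩ E) := by
    ext x
    simp only [pat, Set.mem_inter_iff, Set.mem_ofPred_eq, Set.mem_iUnion, Finset.mem_insert]
    constructor
    · rintro ⟨h, hx⟩
      refine ⟨x i, ?_, hx⟩
      rintro j (rfl | hj)
      · simp
      · rw [Function.update_of_ne]
        · exact h j hj
        · rintro rfl; exact hi hj
    · rintro ⟨c, h, hx⟩
      refine ⟨fun j hj => ?_, hx⟩
      have := h j (Or.inr hj)
      rwa [Function.update_of_ne] at this
      rintro rfl; exact hi hj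
  rw [h1, measure_iUnion, tsum_fintype]
  · intro c d hcd
    refine Set.disjoint_left.2 ?_
    rintro x ⟨hx, -⟩ ⟨hx', -⟩
    have a1 := hx i (Finset.mem_insert_self _ _)
    have a2 := hx' i (Finset.mem_insert_self _ _)
    simp only [Function.update_self] at a1 a2
    exact hcd (a1.symm.trans a2)
  · intro c
    exact (measurableSet_pat _ _).inter hE

lemma measure_pat (ν : Measure Om) {S : Finset ℤ} {i : ℤ} (hi : i ∉ S) (y : Om) :
    ν (pat S y) = ∑ c, ν (pat (insert i S) (Function.update y i c)) := by
  have := measure_pat_inter ν hi y MeasurableSet.univ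
  simpa using this

/-- additivity of a function of patterns -/
def Additive' (F : Finset ℤ → Om → ENNReal) : Prop :=
  ∀ (S : Finset ℤ) (i : ℤ) (y : Om), i ∉ S → F S y = ∑ c, F (insert i S) (Function.update y i c)

lemma down {F G : Finset ℤ → Om → ENNReal} (hF : Additive' F) (hG : Additive' G)
    (T : Finset ℤ) : ∀ S : Finset ℤ, (∀ y, F (S ∪ T) y = G (S ∪ T) y) → ∀ y, F S y = G S y := by
  induction T using Finset.induction_on with
  | empty => intro S h; simpa using h
  | insert i T hiT ih =>
    intro S h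
    apply ih S
    intro y
    by_cases hi : i ∈ S ∪ T
    · have : S ∪ insert i T = S ∪ T := by
        rw [Finset.union_insert]
        exact Finset.insert_eq_of_mem hi
      rw [this] at h
      exact h y
    · rw [hF _ i y hi, hG _ i y hi]
      refine Finset.sum_congr rfl (fun c _ => ?_)
      have := h (Function.update y i c)
      rwa [Finset.union_insert] at this

lemma down_subset {F G : Finset ℤ → Om → ENNReal} (hF : Additive' F) (hG : Additive' G)
    {S T : Finset ℤ} (hST : S ⊆ T) (h : ∀ y, F T y = G T y) : ∀ y, F S y = G S y := by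
  apply down hF hG T S
  rw [Finset.union_eq_right.2 hST]
  exact h

/-- the word read off `y` in the window `[m, m+k)` -/
def word (y : Om) (m : ℤ) (k : ℕ) : List (Fin 3) := List.ofFn (fun j : Fin k => y (m + j))

lemma word_update_right (y : Om) (m : ℤ) (k : ℕ) (c : Fin 3) :
    word (Function.update y (m + k) c) m (k + 1) = word y m k ++ [c] := by
  unfold word
  rw [List.ofFn_succ_last]
  congr 1
  · congr 1
    funext j
    rw [Function.update_of_ne]
    · simp
    · have := j.2
      simp only [Fin.val_castSucc]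
      omega
  · simp

lemma word_update_left (y : Om) (m : ℤ) (k : ℕ) (c : Fin 3) :
    word (Function.update y m c) m (k + 1) = c :: word y (m + 1) k := by
  unfold word
  rw [List.ofFn_succ]
  congr 1
  · simp
  · congr 1
    funext j
    rw [Function.update_of_ne]
    · congr 1
      simp only [Fin.val_succ]
      push_cast
      ring
    · simp only [Fin.val_succ]
      push_cast
      omega

lemma word_congr {y z : Om} {m : ℤ} {k : ℕ} (h : ∀ i, m ≤ i → i < m + k → y i = z i) :
    word y m k = word z m k := by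
  unfold word
  congr 1
  funext j
  have := j.2
  exact h _ (by omega) (by omega)

lemma word_append (y : Om) (m : ℤ) (k l : ℕ) :
    word y m (k + l) = word y m k ++ word y (m + k) l := by
  unfold word
  rw [List.ofFn_add]
  congr 1
  congr 1
  funext j
  congr 1
  simp
  ring

lemma insert_Ico_right (m : ℤ) (k : ℕ) :
    insert (m + k) (Finset.Ico m (m + k)) = Finset.Ico m (m + (k + 1 : ℕ)) := by
  ext i
  simp only [Finset.mem_insert, Finset.mem_Ico]
  push_cast
  omega

lemma insert_Ico_left (m : ℤ) (k : ℕ) :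
    insert m (Finset.Ico (m + 1) (m + 1 + k)) = Finset.Ico m (m + (k + 1 : ℕ)) := by
  ext i
  simp only [Finset.mem_insert, Finset.mem_Ico]
  push_cast
  omega

open H82Col (IsWeight)

variable {φ : List (Fin 3) → ℝ}

/-- the measure `ν` gives the windows of length `k` starting at `m` the right mass -/
def Good (φ : List (Fin 3) → ℝ) (ν : Measure Om) (m : ℤ) (k : ℕ) : Prop :=
  ∀ y, ν (pat (Finset.Ico m (m + k)) y) = ENNReal.ofReal (φ (word y m k))

lemma Good.right (hφ : IsWeight φ) {ν : Measure Om} {m : ℤ} {k : ℕ} (h : Good φ ν m (k + 1)) :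
    Good φ ν m k := by
  intro y
  have hi : (m + k : ℤ) ∉ Finset.Ico m (m + k) := by simp
  rw [measure_pat ν hi y, insert_Ico_right]
  simp_rw [h _, word_update_right]
  rw [← ENNReal.ofReal_sum_of_nonneg (fun _ _ => hφ.nonneg _), hφ.right]

lemma Good.left (hφ : IsWeight φ) {ν : Measure Om} {m : ℤ} {k : ℕ} (h : Good φ ν m (k + 1)) :
    Good φ ν (m + 1) k := by
  intro y
  have hi : m ∉ Finset.Ico (m + 1) (m + 1 + k) := by simp
  rw [measure_pat ν hi y, insert_Ico_left]
  simp_rw [h _, word_update_left]
  rw [← ENNReal.ofReal_sum_of_nonneg (fun _ _ => hφ.nonneg _), hφ.left]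

lemma Good.rights (hφ : IsWeight φ) {ν : Measure Om} {m : ℤ} {k : ℕ} (j : ℕ)
    (h : Good φ ν m (k + j)) : Good φ ν m k := by
  induction j with
  | zero => exact h
  | succ j ih => exact ih (Good.right hφ h)

lemma Good.lefts (hφ : IsWeight φ) {ν : Measure Om} {m : ℤ} {k : ℕ} (j : ℕ)
    (h : Good φ ν m (k + j)) : Good φ ν (m + j) k := by
  induction j generalizing m with
  | zero => simpa using h
  | succ j ih =>
    have := ih (Good.left hφ h)
    have e : m + 1 + (j : ℤ) = m + ((j + 1 : ℕ) : ℤ) := by push_cast; ring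
    rwa [e] at this

lemma Good.sub (hφ : IsWeight φ) {ν : Measure Om} {a : ℤ} {N : ℕ} (h : Good φ ν a N)
    {m : ℤ} {k : ℕ} (h1 : a ≤ m) (h2 : m + k ≤ a + N) : Good φ ν m k := by
  obtain ⟨i, hi⟩ := Int.eq_ofNat_of_zero_le (sub_nonneg.2 h1)
  have hm : m = a + i := by omega
  subst hm
  have hN : (k + (N - i - k)) + i = N := by omega
  rw [← hN] at h
  exact Good.rights hφ _ (Good.lefts hφ _ h)

/-- extension of a word to all of `ℤ` by `0` -/
def ext' (a : ℤ) (N : ℕ) (f : Fin N → Fin 3) : Om := fun i =>
  if h : 0 ≤ i - a ∧ i - a < N then f ⟨(i - a).toNat, by omega⟩ else 0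

lemma ext'_apply (a : ℤ) (N : ℕ) (f : Fin N → Fin 3) (j : Fin N) : ext' a N f (a + j) = f j := by
  unfold ext'
  have hj := j.2
  rw [dif_pos (by constructor <;> omega)]
  congr 1
  apply Fin.ext
  simp

/-- the law of the window `[a, a+N)` -/
noncomputable def winMeas (φ : List (Fin 3) → ℝ) (a : ℤ) (N : ℕ) : Measure Om :=
  ∑ f : Fin N → Fin 3, ENNReal.ofReal (φ (List.ofFn f)) • Measure.dirac (ext' a N f)

lemma winMeas_good (a : ℤ) (N : ℕ) : Good φ (winMeas φ a N) a N := by
  intro y
  unfold winMeas
  rw [Measure.finsetSum_apply]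
  rw [Finset.sum_eq_single (fun j : Fin N => y (a + j))]
  · rw [Measure.smul_apply, Measure.dirac_apply' _ (measurableSet_pat _ _), smul_eq_mul,
      Set.indicator_of_mem]
    · simp [word]
    · intro i hi
      rw [Finset.mem_Ico] at hi
      obtain ⟨j, hj⟩ := Int.eq_ofNat_of_zero_le (sub_nonneg.2 hi.1)
      have : i = a + ((⟨j, by omega⟩ : Fin N) : ℕ) := by simp; omega
      rw [this, ext'_apply]
  · intro f _ hf
    rw [Measure.smul_apply, Measure.dirac_apply' _ (measurableSet_pat _ _), smul_eq_mul,
      Set.indicator_of_notMem, mul_zero]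
    intro hmem
    apply hf
    funext j
    have := hmem (a + j) (by rw [Finset.mem_Ico]; have := j.2; constructor <;> omega)
    rwa [ext'_apply] at this
  · intro h; exact absurd (Finset.mem_univ _) h

lemma winMeas_prob (hφ : IsWeight φ) (a : ℤ) (N : ℕ) : IsProbabilityMeasure (winMeas φ a N) := by
  constructor
  have h := (winMeas_good (φ := φ) a N).sub hφ (m := a) (k := 0) le_rfl (by omega)
  have := h (fun _ => 0)
  simpa [pat_empty, word, hφ.nil] using this

theorem exists_good (hφ : IsWeight φ) :
    ∃ μ : Measure Om, IsProbabilityMeasure μ ∧ ∀ m k, Good φ μ m k := by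
  classical
  let P : ℕ → ProbabilityMeasure Om := fun n =>
    ⟨winMeas φ (-n) (2 * n + 1), winMeas_prob hφ _ _⟩
  let F : Ultrafilter (ProbabilityMeasure Om) := (hyperfilter ℕ).map P
  obtain ⟨μ, -, hμ⟩ := isCompact_univ.ultrafilter_le_nhds F (by simp)
  refine ⟨μ, inferInstance, ?_⟩
  intro m k y
  have hlim : Tendsto P (hyperfilter ℕ : Filter ℕ) (𝓝 μ) := hμ
  have h1 := ProbabilityMeasure.tendsto_measure_of_null_frontier_of_tendsto' hlim
    (E := pat (Finset.Ico m (m + k)) y) (by simp [(isClopen_pat _ _)])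
  have h2 : ∀ᶠ n in (hyperfilter ℕ : Filter ℕ),
      (P n : Measure Om) (pat (Finset.Ico m (m + k)) y) = ENNReal.ofReal (φ (word y m k)) := by
    have h3 : ∀ᶠ n in (atTop : Filter ℕ),
      (P n : Measure Om) (pat (Finset.Ico m (m + k)) y) = ENNReal.ofReal (φ (word y m k)) := by
      filter_upwards [eventually_ge_atTop (m.natAbs + k)] with n hn
      exact (winMeas_good (φ := φ) (-n) (2 * n + 1)).sub hφ (by omega) (by push_cast; omega) y
    exact Nat.hyperfilter_le_atTop h3
  have h4 : Tendsto (fun n => (P n : Measure Om) (pat (Finset.Ico m (m + k)) y))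
      (hyperfilter ℕ : Filter ℕ) (𝓝 (ENNReal.ofReal (φ (word y m k)))) :=
    tendsto_const_nhds.congr' (h2.mono (fun n hn => hn.symm))
  exact tendsto_nhds_unique h1 h4

/-- every pattern set law is determined by the windows -/
lemma additive_measure (ν : Measure Om) {E : Set Om} (hE : MeasurableSet E) :
    Additive' (fun S y => ν (pat S y ∩ E)) := fun _ _ y hi => measure_pat_inter ν hi y hE

lemma additive_measure' (ν : Measure Om) : Additive' (fun S y => ν (pat S y)) :=
  fun _ _ y hi => measure_pat ν hi y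

lemma additive_mul (ν : Measure Om) (c : ENNReal) : Additive' (fun S y => ν (pat S y) * c) := by
  intro S i y hi
  simp only
  rw [measure_pat ν hi y, Finset.sum_mul]

/-- a finite set of integers is contained in a window -/
lemma exists_window (S : Finset ℤ) : ∃ (m : ℤ) (k : ℕ), S ⊆ Finset.Ico m (m + k) := by
  classical
  induction S using Finset.induction_on with
  | empty => exact ⟨0, 0, by simp⟩
  | insert i S _ ih =>
    obtain ⟨m, k, h⟩ := ih
    refine ⟨min i m, (max (i + 1) (m + k) - min i m).toNat, ?_⟩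
    intro j hj
    rw [Finset.mem_insert] at hj
    rw [Finset.mem_Ico]
    rcases hj with rfl | hj
    · constructor <;> omega
    · have := Finset.mem_Ico.1 (h hj)
      constructor <;> omega

/-- the sets of patterns on finite subsets of `A` -/
def Pats (A : Set ℤ) : Set (Set Om) :=
  {s | ∃ S : Finset ℤ, (S : Set ℤ) ⊆ A ∧ ∃ y, s = pat S y}

lemma isPiSystem_Pats (A : Set ℤ) : IsPiSystem (Pats A) := by
  classical
  rintro s ⟨S, hS, y, rfl⟩ t ⟨T, hT, z, rfl⟩ ⟨w, hw1, hw2⟩
  refine ⟨S ∪ T, by push_cast; exact Set.union_subset hS hT, w, ?_⟩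
  rw [pat_union, pat_congr (z := w) (fun i hi => (hw1 i hi).symm),
    pat_congr (z := w) (S := T) (fun i hi => (hw2 i hi).symm)]

lemma generateFrom_Pats (A : Set ℤ) :
    MeasurableSpace.comap (fun (x : Om) (a : A) => x a) MeasurableSpace.pi
      = MeasurableSpace.generateFrom (Pats A) := by
  apply le_antisymm
  · rw [← measurable_iff_comap_le]
    refine @measurable_pi_lambda _ _ _ (MeasurableSpace.generateFrom (Pats A)) _ _ (fun a => ?_)
    refine @measurable_to_countable' (Fin 3) Om _ _ (MeasurableSpace.generateFrom (Pats A)) _ ?_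
    intro c
    apply MeasurableSpace.measurableSet_generateFrom
    refine ⟨{(a : ℤ)}, by simp, fun _ => c, ?_⟩
    ext x
    simp [pat]
  · apply MeasurableSpace.generateFrom_le
    rintro s ⟨S, hS, y, rfl⟩
    rw [pat_eq_biInter]
    apply Finset.measurableSet_biInter
    intro i hi
    refine ⟨(fun z : A → Fin 3 => z ⟨i, hS hi⟩) ⁻¹' {y i}, ?_, rfl⟩
    exact measurable_pi_apply _ (measurableSet_singleton _)

lemma ext_of_good (hφ : IsWeight φ) {μ ν : Measure Om} [IsProbabilityMeasure μ]
    [IsProbabilityMeasure ν] (hμ : ∀ m k, Good φ μ m k) (hν : ∀ m k, Good φ ν m k) : μ = ν := by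
  have hgen : (MeasurableSpace.pi : MeasurableSpace Om)
      = MeasurableSpace.generateFrom (Pats Set.univ) := by
    rw [← generateFrom_Pats]
    apply le_antisymm
    · intro s hs
      refine ⟨(fun (z : (↥(Set.univ : Set ℤ)) → Fin 3) (i : ℤ) => z ⟨i, trivial⟩) ⁻¹' s, ?_, ?_⟩
      · exact (measurable_pi_lambda _ (fun i => measurable_pi_apply _)) hs
      · rfl
    · rw [← measurable_iff_comap_le]
      exact measurable_pi_lambda _ (fun i => measurable_pi_apply _)
  refine ext_of_generate_finite _ hgen (isPiSystem_Pats _) ?_ (by simp)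
  rintro s ⟨S, -, y, rfl⟩
  obtain ⟨m, k, hmk⟩ := exists_window S
  exact down_subset (additive_measure' μ) (additive_measure' ν) hmk
    (fun z => by rw [hμ m k z, hν m k z]) y

lemma shift_eq (hφ : IsWeight φ) {μ : Measure Om} [IsProbabilityMeasure μ]
    (hμ : ∀ m k, Good φ μ m k) :
    μ.map (fun (x : ℤ → Fin 3) (n : ℤ) => x (n + 1)) = μ := by
  have hmeas : Measurable (fun (x : ℤ → Fin 3) (n : ℤ) => x (n + 1)) :=
    measurable_pi_lambda _ (fun i => measurable_pi_apply _)
  have : IsProbabilityMeasure (μ.map (fun (x : ℤ → Fin 3) (n : ℤ) => x (n + 1))) :=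
    Measure.isProbabilityMeasure_map hmeas.aemeasurable
  refine ext_of_good hφ ?_ hμ
  intro m k y
  rw [Measure.map_apply hmeas (measurableSet_pat _ _)]
  have h1 : (fun (x : ℤ → Fin 3) (n : ℤ) => x (n + 1)) ⁻¹' pat (Finset.Ico m (m + k)) y
      = pat (Finset.Ico (m + 1) (m + 1 + k)) (fun i => y (i - 1)) := by
    ext x
    simp only [pat, Set.mem_preimage, Set.mem_ofPred_eq, Finset.mem_Ico]
    constructor
    · intro h i hi
      have := h (i - 1) (by constructor <;> omega)
      simpa using this
    · intro h i hi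
      have := h (i + 1) (by constructor <;> omega)
      simpa using this
  have h2 : word y m k = word (fun i => y (i - 1)) (m + 1) k := by
    unfold word
    congr 1
    funext j
    have : (m + 1 + (j : ℤ) - 1) = m + j := by ring
    simp only [this]
  rw [h1, hμ, h2]

lemma proper_ae (hφ : IsWeight φ) {μ : Measure Om} [IsProbabilityMeasure μ]
    (hμ : ∀ m k, Good φ μ m k) : ∀ᵐ x ∂μ, ∀ n : ℤ, x n ≠ x (n + 1) := by
  rw [ae_all_iff]
  intro n
  rw [ae_iff]
  have h1 : {x : Om | ¬ x n ≠ x (n + 1)} = ⋃ c : Fin 3, pat (Finset.Ico n (n + (2 : ℕ))) (fun _ => c) := by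
    ext x
    simp only [pat, Set.mem_ofPred_eq, Set.mem_iUnion, Finset.mem_Ico, not_not]
    constructor
    · intro h
      refine ⟨x n, fun i hi => ?_⟩
      have : i = n ∨ i = n + 1 := by push_cast at hi; omega
      rcases this with rfl | rfl
      · rfl
      · exact h.symm
    · rintro ⟨c, h⟩
      rw [h n (by constructor <;> push_cast <;> omega), h (n + 1) (by constructor <;> push_cast <;> omega)]
  rw [h1, measure_iUnion_null_iff]
  intro c
  rw [hμ n 2]
  have : word (fun _ => c) n 2 = [] ++ c :: c :: [] := by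
    simp [word, List.ofFn_succ]
  rw [this, hφ.proper]
  simp

lemma indep_windows (hφ : IsWeight φ) {μ : Measure Om} [IsProbabilityMeasure μ]
    (hμ : ∀ m k, Good φ μ m k) (m : ℤ) (k l : ℕ) (y : Om) :
    μ (pat (Finset.Ico m (m + k)) y ∩ pat (Finset.Ico (m + k + 2) (m + k + 2 + l)) y)
      = μ (pat (Finset.Ico m (m + k)) y) * μ (pat (Finset.Ico (m + k + 2) (m + k + 2 + l)) y) := by
  rw [← pat_union]
  have h1 : (m + k : ℤ) ∉ Finset.Ico m (m + k) ∪ Finset.Ico (m + k + 2) (m + k + 2 + l) := by
    simp
  have h2 : (m + k + 1 : ℤ) ∉ insert (m + k : ℤ)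
      (Finset.Ico m (m + k) ∪ Finset.Ico (m + k + 2) (m + k + 2 + l)) := by
    simp
  have h3 : insert (m + k + 1 : ℤ) (insert (m + k : ℤ)
      (Finset.Ico m (m + k) ∪ Finset.Ico (m + k + 2) (m + k + 2 + l)))
      = Finset.Ico m (m + (k + 2 + l : ℕ)) := by
    ext i
    simp only [Finset.mem_insert, Finset.mem_union, Finset.mem_Ico]
    push_cast
    omega
  rw [measure_pat μ h1 y]
  simp_rw [measure_pat μ h2 _, h3, hμ _ _ _]
  have h4 : ∀ s t : Fin 3, word (Function.update (Function.update y (m + k) s) (m + k + 1) t) m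
      (k + 2 + l) = word y m k ++ s :: t :: word y (m + k + 2) l := by
    intro s t
    rw [word_append, word_append, List.append_assoc]
    congr 1
    · apply word_congr
      intro i hi1 hi2
      rw [Function.update_of_ne (by omega), Function.update_of_ne (by omega)]
    · have : word (Function.update (Function.update y (m + k) s) (m + k + 1) t) (m + k) 2
          = [s, t] := by
        simp [word, List.ofFn_succ]
      rw [this]
      simp only [List.cons_append, List.nil_append, List.cons.injEq, true_and]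
      have e : m + ((k + 2 : ℕ) : ℤ) = m + k + 2 := by push_cast; ring
      rw [e]
      apply word_congr
      intro i hi1 hi2
      rw [Function.update_of_ne (by omega), Function.update_of_ne (by omega)]
  simp_rw [h4]
  rw [← ENNReal.ofReal_mul (hφ.nonneg _), ← hφ.dep,
    ENNReal.ofReal_sum_of_nonneg (fun _ _ => Finset.sum_nonneg (fun _ _ => hφ.nonneg _))]
  refine Finset.sum_congr rfl (fun s _ => ?_)
  rw [ENNReal.ofReal_sum_of_nonneg (fun _ _ => hφ.nonneg _)]

/-- one cut -/
lemma indep_cut (hφ : IsWeight φ) {μ : Measure Om} [IsProbabilityMeasure μ]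
    (hμ : ∀ m k, Good φ μ m k) (b : ℤ) (S T : Finset ℤ) (hS : ∀ i ∈ S, i ≤ b)
    (hT : ∀ i ∈ T, b + 2 < i) (y z : Om) :
    μ (pat S y ∩ pat T z) = μ (pat S y) * μ (pat T z) := by
  classical
  obtain ⟨m, k, hmk⟩ := exists_window (insert b S)
  obtain ⟨m', k', hmk'⟩ := exists_window (insert (b + 3) T)
  have hb := Finset.mem_Ico.1 (hmk (Finset.mem_insert_self _ _))
  have hb' := Finset.mem_Ico.1 (hmk' (Finset.mem_insert_self _ _))
  obtain ⟨p, hp⟩ := Int.eq_ofNat_of_zero_le (show 0 ≤ b + 1 - m by omega)
  obtain ⟨q, hq⟩ := Int.eq_ofNat_of_zero_le (show 0 ≤ m' + k' - (b + 3) by omega)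
  have hS' : S ⊆ Finset.Ico m (m + p) := by
    intro i hi
    have := Finset.mem_Ico.1 (hmk (Finset.mem_insert_of_mem hi))
    have := hS i hi
    rw [Finset.mem_Ico]; constructor <;> omega
  have hT' : T ⊆ Finset.Ico (m + p + 2) (m + p + 2 + q) := by
    intro i hi
    have := Finset.mem_Ico.1 (hmk' (Finset.mem_insert_of_mem hi))
    have := hT i hi
    rw [Finset.mem_Ico]; constructor <;> omega
  -- windows
  have hw : ∀ y z : Om, μ (pat (Finset.Ico m (m + p)) y ∩ pat (Finset.Ico (m + p + 2) (m + p + 2 + q)) z)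
      = μ (pat (Finset.Ico m (m + p)) y) * μ (pat (Finset.Ico (m + p + 2) (m + p + 2 + q)) z) := by
    intro y z
    have := indep_windows hφ hμ m p q (fun i => if i < m + p then y i else z i)
    have e1 : pat (Finset.Ico m (m + p)) (fun i => if i < m + p then y i else z i)
        = pat (Finset.Ico m (m + p)) y := pat_congr (fun i hi => by
          rw [Finset.mem_Ico] at hi; rw [if_pos hi.2])
    have e2 : pat (Finset.Ico (m + p + 2) (m + p + 2 + q)) (fun i => if i < m + p then y i else z i)
        = pat (Finset.Ico (m + p + 2) (m + p + 2 + q)) z := pat_congr (fun i hi => by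
          rw [Finset.mem_Ico] at hi; rw [if_neg (by omega)])
    rwa [e1, e2] at this
  have hw2 : ∀ z y : Om, μ (pat S y ∩ pat (Finset.Ico (m + p + 2) (m + p + 2 + q)) z)
      = μ (pat S y) * μ (pat (Finset.Ico (m + p + 2) (m + p + 2 + q)) z) := fun z =>
    down_subset (additive_measure μ (measurableSet_pat _ z)) (additive_mul μ _) hS' (fun y => hw y z)
  have hw3 : ∀ z : Om, μ (pat T z ∩ pat S y) = μ (pat T z) * μ (pat S y) :=
    down_subset (additive_measure μ (measurableSet_pat _ y)) (additive_mul μ _) hT'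
      (fun z => by rw [Set.inter_comm, hw2 z y, mul_comm])
  rw [Set.inter_comm, hw3, mul_comm]

lemma indep_pats (hφ : IsWeight φ) {μ : Measure Om} [IsProbabilityMeasure μ]
    (hμ : ∀ m k, Good φ μ m k) (n : ℕ) : ∀ (S T : Finset ℤ), S.card + T.card ≤ n →
    (∀ a ∈ S, ∀ b ∈ T, (2 : ℤ) < |a - b|) → ∀ (y z : Om),
    μ (pat S y ∩ pat T z) = μ (pat S y) * μ (pat T z) := by
  classical
  induction n with
  | zero =>
    intro S T hc _ y z
    have hS : S = ∅ := by rw [← Finset.card_eq_zero]; omega
    subst hS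
    simp [pat_empty]
  | succ n ih =>
    -- the main case, by symmetry
    have key : ∀ (S T : Finset ℤ), S.card + T.card ≤ n + 1 →
        (∀ a ∈ S, ∀ b ∈ T, (2 : ℤ) < |a - b|) → ∀ (b : ℤ), b ∈ T → (∀ t ∈ T, t ≤ b) →
        (∃ a ∈ S, b < a) → ∀ (y z : Om),
        μ (pat S y ∩ pat T z) = μ (pat S y) * μ (pat T z) := by
      intro S T hc hST b hbT hbmax ⟨a, haS, hba⟩ y z
      set S1 := S.filter (fun i => i ≤ b) with hS1
      set S2 := S.filter (fun i => ¬ i ≤ b) with hS2
      have hSu : S1 ∪ S2 = S := Finset.filter_union_filter_not_eq _ _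
      have hcard : S1.card + T.card ≤ n := by
        have : S1.card < S.card := by
          apply Finset.card_lt_card
          refine ⟨Finset.filter_subset _ _, fun h => ?_⟩
          have := h haS
          rw [hS1, Finset.mem_filter] at this
          omega
        omega
      have hS1T : ∀ a ∈ S1, ∀ b ∈ T, (2 : ℤ) < |a - b| := fun a ha =>
        hST a (Finset.mem_filter.1 ha).1
      have hS2b : ∀ i ∈ S2, b + 2 < i := by
        intro i hi
        rw [hS2, Finset.mem_filter] at hi
        have := hST i hi.1 b hbT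
        rw [abs_of_pos (by omega)] at this
        omega
      have hS1b : ∀ i ∈ S1, i ≤ b := fun i hi => (Finset.mem_filter.1 hi).2
      have e1 : pat S y = pat S1 y ∩ pat S2 y := by rw [← pat_union, hSu]
      -- combine S1 and T
      let w : Om := fun i => if i ∈ T then z i else y i
      have e2 : pat S1 y ∩ pat T z = pat (S1 ∪ T) w := by
        rw [pat_union]
        congr 1
        · apply pat_congr
          intro i hi
          have : i ∉ T := by
            intro hT
            have := hS1T i hi i hT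
            simp at this
          simp only [w, if_neg this]
        · apply pat_congr
          intro i hi
          simp only [w, if_pos hi]
      have e3 : pat S y ∩ pat T z = pat (S1 ∪ T) w ∩ pat S2 y := by
        rw [e1, ← e2]
        ext x; simp only [Set.mem_inter_iff]; tauto
      rw [e3, indep_cut hφ hμ b (S1 ∪ T) S2 _ hS2b, ← e2, ih S1 T hcard hS1T, e1,
        indep_cut hφ hμ b S1 S2 hS1b hS2b]
      · ring
      · intro i hi
        rw [Finset.mem_union] at hi
        rcases hi with hi | hi
        · exact hS1b i hi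
        · exact hbmax i hi
    intro S T hc hST y z
    rcases S.eq_empty_or_nonempty with rfl | hSn
    · simp [pat_empty]
    rcases T.eq_empty_or_nonempty with rfl | hTn
    · simp [pat_empty]
    have ha := S.max'_mem hSn
    have hb := T.max'_mem hTn
    rcases lt_trichotomy (S.max' hSn) (T.max' hTn) with h | h | h
    · rw [Set.inter_comm, mul_comm]
      refine key T S (by omega) (fun a ha b hb => ?_) (S.max' hSn) ha
        (fun t ht => S.le_max' t ht) ⟨T.max' hTn, hb, h⟩ z y
      rw [abs_sub_comm]; exact hST b hb a ha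
    · exfalso
      have := hST _ ha _ hb
      rw [h] at this
      simp at this
    · exact key S T hc hST (T.max' hTn) hb (fun t ht => T.le_max' t ht) ⟨S.max' hSn, ha, h⟩ y z

lemma indepFun (hφ : IsWeight φ) {μ : Measure Om} [IsProbabilityMeasure μ]
    (hμ : ∀ m k, Good φ μ m k) (A B : Set ℤ) (hAB : ∀ a ∈ A, ∀ b ∈ B, (2 : ℤ) < |a - b|) :
    IndepFun (fun (x : ℤ → Fin 3) (a : A) => x a) (fun (x : ℤ → Fin 3) (b : B) => x b) μ := by
  rw [IndepFun_iff_Indep]
  refine IndepSets.indep ?_ ?_ (isPiSystem_Pats A) (isPiSystem_Pats B) (generateFrom_Pats A)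
    (generateFrom_Pats B) ?_
  · rw [← measurable_iff_comap_le]
    exact measurable_pi_lambda _ (fun i => measurable_pi_apply _)
  · rw [← measurable_iff_comap_le]
    exact measurable_pi_lambda _ (fun i => measurable_pi_apply _)
  · rw [IndepSets_iff]
    rintro s t ⟨S, hS, y, rfl⟩ ⟨T, hT, z, rfl⟩
    exact indep_pats hφ hμ _ S T le_rfl (fun a ha b hb => hAB a (hS ha) b (hT hb)) y z

theorem exists_measure (hφ : IsWeight φ) :
    ∃ μ : Measure (ℤ → Fin 3), IsProbabilityMeasure μ ∧
      μ.map (fun (x : ℤ → Fin 3) (n : ℤ) => x (n + 1)) = μ ∧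
      (∀ᵐ x ∂μ, ∀ n : ℤ, x n ≠ x (n + 1)) ∧
      (∀ A B : Set ℤ, (∀ a ∈ A, ∀ b ∈ B, (2 : ℤ) < |a - b|) →
        IndepFun (fun (x : ℤ → Fin 3) (a : A) => x a)
          (fun (x : ℤ → Fin 3) (b : B) => x b) μ) ∧
      (∀ w : List (Fin 3), μ.real {x | ∀ i : Fin w.length, x i = w.get i} = φ w) := by
  obtain ⟨μ, hp, hμ⟩ := exists_good hφ
  refine ⟨μ, hp, shift_eq hφ hμ, proper_ae hφ hμ, indepFun hφ hμ, ?_⟩
  intro w
  have h1 : {x : Om | ∀ i : Fin w.length, x i = w.get i}
      = pat (Finset.Ico (0 : ℤ) (0 + w.length)) (fun i => w.getD i.toNat 0) := by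
    ext x
    simp only [pat, Set.mem_ofPred_eq, Finset.mem_Ico]
    constructor
    · intro h i hi
      obtain ⟨j, rfl⟩ := Int.eq_ofNat_of_zero_le hi.1
      have hj : j < w.length := by omega
      have := h ⟨j, hj⟩
      rw [Int.toNat_natCast, List.getD_eq_getElem _ _ hj]
      exact this
    · intro h i
      have := h i (by have := i.2; constructor <;> omega)
      rw [this]
      simp
  rw [h1, Measure.real, hμ 0 w.length]
  rw [ENNReal.toReal_ofReal (hφ.nonneg _)]
  congr 1
  unfold word
  apply List.ext_get (by simp)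
  intro n h1 h2
  simp

end Pool.H71.Kol
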