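import Pool.Agent.H71.Col.Bridge
import Pool.Agent.H71.Col.Kol
import Pool.Agent.H71.Col.HL

set_option autoImplicit false
open MeasureTheory ProbabilityTheory

namespace Pool.H71.Final

/-- two weights with different values give the negation of uniqueness -/
theorem notMain_of_weights {φ ψ : List (Fin 3) → ℝ} (hφ : H82Col.IsWeight φ)
    (hψ : H82Col.IsWeight ψ) (w : List (Fin 3)) (hne : φ w ≠ ψ w) :
    ¬ (∀ μ ν : Measure (ℤ → Fin 3),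
    IsProbabilityMeasure μ → IsProbabilityMeasure ν →
    μ.map (fun (x : ℤ → Fin 3) (n : ℤ) => x (n + 1)) = μ →
    ν.map (fun (x : ℤ → Fin 3) (n : ℤ) => x (n + 1)) = ν →
    (∀ᵐ x ∂μ, ∀ n : ℤ, x n ≠ x (n + 1)) →
    (∀ᵐ x ∂ν, ∀ n : ℤ, x n ≠ x (n + 1)) →
    (∀ A B : Set ℤ, (∀ a ∈ A, ∀ b ∈ B, (2 : ℤ) < |a - b|) →
      IndepFun (fun (x : ℤ → Fin 3) (a : A) => x a)
        (fun (x : ℤ → Fin 3) (b : B) => x b) μ) →
    (∀ A B : Set ℤ, (∀ a ∈ A, ∀ b ∈ B, (2 : ℤ) < |a - b|) →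
      IndepFun (fun (x : ℤ → Fin 3) (a : A) => x a)
        (fun (x : ℤ → Fin 3) (b : B) => x b) ν) →
    μ = ν) := by
  intro H
  obtain ⟨μ, hμ1, hμ2, hμ3, hμ4, hμ5⟩ := Pool.H71.Kol.exists_measure hφ
  obtain ⟨ν, hν1, hν2, hν3, hν4, hν5⟩ := Pool.H71.Kol.exists_measure hψ
  have h := H μ ν hμ1 hν1 hμ2 hν2 hμ3 hν3 hμ4 hν4
  apply hne
  rw [← hμ5 w, ← hν5 w, h]

theorem notMain_of_run (hrun : ∀ l : List Bool, 0 < (H16Col.run l).F) :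
    ¬ (∀ μ ν : Measure (ℤ → Fin 3),
    IsProbabilityMeasure μ → IsProbabilityMeasure ν →
    μ.map (fun (x : ℤ → Fin 3) (n : ℤ) => x (n + 1)) = μ →
    ν.map (fun (x : ℤ → Fin 3) (n : ℤ) => x (n + 1)) = ν →
    (∀ᵐ x ∂μ, ∀ n : ℤ, x n ≠ x (n + 1)) →
    (∀ᵐ x ∂ν, ∀ n : ℤ, x n ≠ x (n + 1)) →
    (∀ A B : Set ℤ, (∀ a ∈ A, ∀ b ∈ B, (2 : ℤ) < |a - b|) →
      IndepFun (fun (x : ℤ → Fin 3) (a : A) => x a)
        (fun (x : ℤ → Fin 3) (b : B) => x b) μ) →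
    (∀ A B : Set ℤ, (∀ a ∈ A, ∀ b ∈ B, (2 : ℤ) < |a - b|) →
      IndepFun (fun (x : ℤ → Fin 3) (a : A) => x a)
        (fun (x : ℤ → Fin 3) (b : B) => x b) ν) →
    μ = ν) := by
  refine notMain_of_weights (H82Col.isWeight_phi (Pool.H71.Bridge.Fw_nonneg_of_run hrun))
    Pool.H71.HL.isWeight_phiHL [0, 1, 0] ?_
  rw [H82Col.phi_010, Pool.H71.HL.phiHL_010]
  norm_num

end Pool.H71.Final
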