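import Pool.Agent.H82.Col.Phi

set_option autoImplicit false

namespace Pool.H71.Red

open H82Col

/-- state of the C/T dynamics -/
structure St where
  F : ℝ
  f : ℕ → ℝ
  g : ℕ → ℝ

theorem St.ext' {x y : St} (h1 : x.F = y.F) (h2 : ∀ s, x.f s = y.f s) (h3 : ∀ s, x.g s = y.g s) :
    x = y := by
  cases x; cases y
  simp only at h1 h2 h3
  rw [h1, funext h2, funext h3]

/-- continue the alternation -/
noncomputable def Cs (x : St) : St where
  F := x.F + x.f 0 / 4
  f := fun s => if s = 0 then x.f 0 - x.f 1 else (-1 : ℝ) ^ (s + 1) * (x.f (s - 1) + x.f (s + 1)) / 2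
  g := fun j => if j = 0 then 0 else if j = 1 then 2 * x.F - x.g 1 else (-1 : ℝ) ^ j * x.g j

/-- turn -/
noncomputable def Ts (x : St) : St where
  F := 2 * x.F - x.f 0 / 4
  f := fun s => if s = 0 then 4 * x.F - x.f 0 - x.g 1
    else if s = 1 then 2 * x.F - x.f 0 / 2 + x.f 2 / 2
    else if s % 2 = 0 then -(x.g (s / 2) + x.g (s / 2 + 1)) / 2
    else (-1 : ℝ) ^ ((s - 1) / 2) * (x.f (s + 1) - x.f (s - 1)) / 2
  g := fun j => if j = 0 then 0 else if j = 1 then 2 * x.F - x.f 1
    else (-1 : ℝ) ^ j * x.f (2 * j - 1)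

/-- initial state (one letter) -/
noncomputable def x0 : St where
  F := 9
  f := fun s => if s = 0 then 18 else if s = 1 then 13 / 2 else if s = 2 then -2
    else if s = 3 then -1 / 2 else 0
  g := fun j => if j = 1 then 13 / 2 else if j = 2 then -1 / 2 else 0

/-- natural coordinates -/
structure Nt where
  A : ℕ → ℝ
  B : ℕ → ℝ
  G : ℕ → ℝ

theorem Nt.ext' {x y : Nt} (h1 : ∀ s, x.A s = y.A s) (h2 : ∀ s, x.B s = y.B s)
    (h3 : ∀ s, x.G s = y.G s) : x = y := by
  cases x; cases y
  simp only at h1 h2 h3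
  rw [funext h1, funext h2, funext h3]

noncomputable def CN (n : Nt) : Nt where
  A := fun j => if j = 0 then n.A 0 - 2 * n.G 0 + 2 * n.A 1 + n.A 2 - n.B 1 / 2 + n.B 2 / 2 + 2 * n.G 1
    else (-1 : ℝ) ^ j * (n.B j - n.B (j - 1)) / 2
  B := fun j => (-1 : ℝ) ^ (j + 1) * (n.A j + n.A (j + 1)) / 2
  G := fun j => (-1 : ℝ) ^ j * n.G j

noncomputable def TN (n : Nt) : Nt where
  A := fun j => if j = 0 then n.A 0 - 2 * n.B 0 - 2 * n.A 1 + n.A 2 - 2 * n.B 1 + n.G 1 / 2 + n.G 2 / 2
    else (n.G (j - 1) + n.G j) / 2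
  B := fun j => (n.A (j + 1) - n.A j) / 2
  G := fun j => n.B j

/-- the two relations -/
def R1 (n : Nt) : Prop := -n.A 0 - 2 * n.B 0 - 2 * n.G 0 + n.A 2 + 2 * n.B 1 - 2 * n.G 1 = 0
def R2 (n : Nt) : Prop := 2 * n.A 1 - n.B 1 - n.G 1 - n.B 0 + n.G 0 = 0

theorem R1_CN (n : Nt) : R1 (CN n) := by
  simp only [R1, CN]
  norm_num
  ring

theorem R2_CN (n : Nt) (h : R1 n) : R2 (CN n) := by
  simp only [R1] at h
  simp only [R2, CN]
  norm_num
  linarith

theorem R1_TN (n : Nt) : R1 (TN n) := by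
  simp only [R1, TN]
  norm_num
  ring

theorem R2_TN (n : Nt) (h : R1 n) : R2 (TN n) := by
  simp only [R1] at h
  simp only [R2, TN]
  norm_num
  linarith

/-- from natural coordinates to the state -/
noncomputable def Phi (n : Nt) : St where
  F := -3 * n.A 0 + 3 * n.B 0 + 3 * n.G 0 - n.A 2 + 2 * n.B 1 - n.B 2 - 2 * n.G 1 - n.G 2
  f := fun s => if s = 0 then -6 * n.A 0 - 12 * n.B 0 + 24 * n.G 0 - 26 * n.A 1 - 2 * n.A 2
      + 2 * n.A 3 - 4 * n.B 2 - 8 * n.G 1
    else if s = 1 then -6 * n.A 0 + n.B 0 - 12 * n.G 0 - 20 * n.A 1 + 2 * n.A 2 - 17 * n.B 1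
      - n.B 2 + n.B 3 - 4 * n.G 1
    else if s % 2 = 0 then n.A (s / 2 - 1) - 34 * n.A (s / 2 + 1) + n.A (s / 2 + 3)
    else (-1 : ℝ) ^ ((s - 1) / 2) * (n.B ((s - 1) / 2 - 1) - 34 * n.B ((s - 1) / 2 + 1)
      + n.B ((s - 1) / 2 + 3))
  g := fun j => if j = 0 then 0 else if j = 1 then -6 * n.A 0 - 12 * n.B 0 + n.G 0 + 20 * n.A 1
      + 2 * n.A 2 + 4 * n.B 1 + 17 * n.G 1 - n.G 2 - n.G 3
    else -(n.G (j - 2) - 34 * n.G j + n.G (j + 2))

theorem Phi_f_even (n : Nt) (j : ℕ) :
    (Phi n).f (2 * j + 2) = n.A j - 34 * n.A (j + 2) + n.A (j + 4) := by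
  have h1 : (2 * j + 2) % 2 = 0 := by omega
  have h2 : (2 * j + 2) / 2 = j + 1 := by omega
  simp only [Phi, h1, h2]
  simp

theorem Phi_f_odd (n : Nt) (j : ℕ) :
    (Phi n).f (2 * j + 3) = (-1 : ℝ) ^ (j + 1) * (n.B j - 34 * n.B (j + 2) + n.B (j + 4)) := by
  have h1 : (2 * j + 3) % 2 = 1 := by omega
  have h2 : (2 * j + 3 - 1) / 2 = j + 1 := by omega
  simp only [Phi, h1, h2]
  simp

theorem Phi_g (n : Nt) (j : ℕ) :
    (Phi n).g (j + 2) = -(n.G j - 34 * n.G (j + 2) + n.G (j + 4)) := by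
  simp [Phi]

theorem Cs_f_succ (x : St) (s : ℕ) :
    (Cs x).f (s + 1) = (-1 : ℝ) ^ s * (x.f s + x.f (s + 2)) / 2 := by
  simp [Cs, pow_succ]

theorem Ts_f_even (x : St) (j : ℕ) :
    (Ts x).f (2 * j + 2) = -(x.g (j + 1) + x.g (j + 2)) / 2 := by
  have h1 : (2 * j + 2) % 2 = 0 := by omega
  have h2 : (2 * j + 2) / 2 = j + 1 := by omega
  simp only [Ts, h1, h2]
  simp

theorem Ts_f_odd (x : St) (j : ℕ) :
    (Ts x).f (2 * j + 3) = (-1 : ℝ) ^ (j + 1) * (x.f (2 * j + 4) - x.f (2 * j + 2)) / 2 := by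
  have h1 : (2 * j + 3) % 2 = 1 := by omega
  have h2 : (2 * j + 3 - 1) / 2 = j + 1 := by omega
  simp only [Ts, h1, h2]
  simp

theorem Phi_CN (n : Nt) (h1 : R1 n) (h2 : R2 n) : Phi (CN n) = Cs (Phi n) := by
  simp only [R1] at h1
  simp only [R2] at h2
  apply St.ext'
  · simp only [Phi, CN, Cs]
    norm_num
    linarith
  · intro s
    rcases s with _ | s
    · simp only [Phi, CN, Cs]
      norm_num
      linarith
    rw [Cs_f_succ]
    rcases s with _ | s
    · have := Phi_f_even n 0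
      simp only [mul_zero, zero_add] at this ⊢
      rw [this]
      simp only [Phi, CN]
      norm_num
      linarith
    obtain ⟨j, rfl | rfl⟩ : ∃ j, s = 2 * j ∨ s = 2 * j + 1 := ⟨s / 2, by omega⟩
    · rw [Phi_f_even]
      rcases j with _ | j
      · have := Phi_f_odd n 0
        simp only [mul_zero, zero_add] at this ⊢
        rw [this]
        simp only [Phi, CN]
        norm_num
        linarith
      · have e1 : (2 * (j + 1) + 1) = 2 * j + 3 := by ring
        have e2 : (2 * (j + 1) + 1 + 2) = 2 * (j + 1) + 3 := by ring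
        rw [e2, e1, Phi_f_odd, Phi_f_odd]
        simp only [CN]
        simp only [Nat.add_eq_zero_iff, one_ne_zero, and_false, if_false, Nat.add_sub_cancel,
          OfNat.ofNat_ne_zero, show j + 1 + 2 - 1 = j + 2 by omega, show j + 1 + 4 - 1 = j + 4 by omega]
        have e3 : (-1 : ℝ) ^ (2 * j + 3) = -1 := by
          rw [pow_succ, pow_succ, pow_succ, pow_mul]; norm_num
        have e4 : (-1 : ℝ) ^ (j + 1) * (-1 : ℝ) ^ (j + 1) = 1 := by
          rw [← pow_add, ← two_mul, pow_mul]; norm_num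
        rw [e3]
        ring
    · have e1 : 2 * j + 1 + 1 = 2 * j + 2 := by ring
      have e2 : 2 * j + 1 + 1 + 2 = 2 * (j + 1) + 2 := by ring
      have e0 : 2 * j + 1 + 1 + 1 = 2 * j + 3 := by ring
      rw [e2, e0, e1, Phi_f_odd, Phi_f_even, Phi_f_even]
      simp only [CN]
      have e3 : (-1 : ℝ) ^ (2 * j + 2) = 1 := by
        rw [pow_succ, pow_succ, pow_mul]; norm_num
      have e4 : (-1 : ℝ) ^ (j + 1) * (-1 : ℝ) ^ (j + 1) = 1 := by
        rw [← pow_add, ← two_mul, pow_mul]; norm_num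
      have e5 : (-1 : ℝ) ^ (j + 2 + 1) = (-1 : ℝ) ^ (j + 1) := by ring
      have e6 : (-1 : ℝ) ^ (j + 4 + 1) = (-1 : ℝ) ^ (j + 1) := by ring
      rw [e3, e5, e6]
      linear_combination ((n.A j + n.A (j + 1)) / 2 - 34 * (n.A (j + 2) + n.A (j + 2 + 1)) / 2
        + (n.A (j + 4) + n.A (j + 4 + 1)) / 2) * e4
  · intro j
    rcases j with _ | _ | j
    · simp [Phi, Cs]
    · simp only [Phi, CN, Cs]
      norm_num
      linarith
    · rw [Phi_g]
      have : (Cs (Phi n)).g (j + 2) = (-1 : ℝ) ^ (j + 2) * (Phi n).g (j + 2) := by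
        simp [Cs]
      rw [this, Phi_g]
      simp only [CN]
      ring

theorem Phi_TN (n : Nt) (h1 : R1 n) (h2 : R2 n) : Phi (TN n) = Ts (Phi n) := by
  simp only [R1] at h1
  simp only [R2] at h2
  apply St.ext'
  · simp only [Phi, TN, Ts]
    norm_num
    linarith
  · intro s
    rcases s with _ | _ | s
    · simp only [Phi, TN, Ts]
      norm_num
      linarith
    · simp only [Phi, TN, Ts]
      norm_num
      linarith
    obtain ⟨j, rfl | rfl⟩ : ∃ j, s = 2 * j ∨ s = 2 * j + 1 := ⟨s / 2, by omega⟩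
    · rw [Ts_f_even, Phi_f_even]
      rcases j with _ | j
      · have := Phi_g n 0
        simp only [zero_add] at this ⊢
        rw [this]
        simp only [Phi, TN]
        norm_num
        linarith
      · rw [Phi_g, Phi_g]
        simp only [TN]
        simp only [Nat.add_eq_zero_iff, one_ne_zero, and_false, if_false, Nat.add_sub_cancel,
          OfNat.ofNat_ne_zero, show j + 1 + 2 - 1 = j + 2 by omega, show j + 1 + 4 - 1 = j + 4 by omega]
        ring
    · have e0 : 2 * j + 1 + 2 = 2 * j + 3 := by ring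
      have e1 : 2 * j + 4 = 2 * (j + 1) + 2 := by ring
      rw [show 2 * j + 1 + 1 + 1 = 2 * j + 3 by ring, Ts_f_odd, Phi_f_odd, e1, Phi_f_even, Phi_f_even]
      simp only [TN]
      ring
  · intro j
    rcases j with _ | _ | j
    · simp [Phi, Ts]
    · simp only [Phi, TN, Ts]
      norm_num
      linarith
    · rw [Phi_g]
      have : (Ts (Phi n)).g (j + 2) = (-1 : ℝ) ^ (j + 2) * (Phi n).f (2 * j + 3) := by
        simp [Ts, show 2 * (j + 2) - 1 = 2 * j + 3 by omega]
      rw [this, Phi_f_odd]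
      simp only [TN]
      have e4 : (-1 : ℝ) ^ (j + 2) * (-1 : ℝ) ^ (j + 1) = -1 := by
        have : (-1 : ℝ) ^ (j + 2) * (-1 : ℝ) ^ (j + 1) = (-1 : ℝ) ^ (2 * j) * (-1) := by ring
        rw [this, pow_mul]; norm_num
      linear_combination (-(n.B j - 34 * n.B (j + 2) + n.B (j + 4))) * e4

/-! ### values on basis vectors -/

/-- delta function -/
def dl (k : ℕ) : ℕ → ℝ := fun i => if i = k then 1 else 0

theorem dA_dl_odd (j k : ℕ) : dA (dl (2 * j + 1)) k = 1 / 2 * dl (2 * j + 1) k + 1 / 2 * dl (2 * j + 2) k := by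
  unfold dA dl
  split_ifs <;> first | (exfalso; omega) | norm_num

theorem dA_dl_even (j k : ℕ) :
    dA (dl (2 * j + 2)) k = -1 / 2 * dl (2 * j + 1) k + -1 / 2 * dl (2 * j + 2) k := by
  unfold dA dl
  split_ifs <;> first | (exfalso; omega) | norm_num

theorem dA_dl_zero (k : ℕ) : dA (dl 0) k = 0 := by
  unfold dA dl
  split_ifs <;> first | (exfalso; omega) | norm_num

theorem dC_dl_even (j k : ℕ) :
    dC (dl (2 * j)) k = 1 / 2 * dl (2 * j) k + 1 / 2 * dl (2 * j + 1) k := by
  unfold dC dl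
  split_ifs <;> first | (exfalso; omega) | norm_num

theorem dC_dl_odd (j k : ℕ) :
    dC (dl (2 * j + 1)) k = -1 / 2 * dl (2 * j) k + -1 / 2 * dl (2 * j + 1) k := by
  unfold dC dl
  split_ifs <;> first | (exfalso; omega) | norm_num

theorem dB_dl_even (j k : ℕ) :
    dB (dl (2 * j)) k = 1 / 2 * dl (2 * j) k + -1 / 2 * dl (2 * j + 1) k := by
  unfold dB dl
  split_ifs <;> first | (exfalso; omega) | norm_num

theorem dB_dl_odd (j k : ℕ) :
    dB (dl (2 * j + 1)) k = 1 / 2 * dl (2 * j) k + -1 / 2 * dl (2 * j + 1) k := by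
  unfold dB dl
  split_ifs <;> first | (exfalso; omega) | norm_num

theorem dA_zero' (k : ℕ) : dA (fun _ => 0) k = 0 := by unfold dA; simp
theorem dB_zero' (k : ℕ) : dB (fun _ => 0) k = 0 := by unfold dB; simp
theorem dC_zero' (k : ℕ) : dC (fun _ => 0) k = 0 := by unfold dC; simp

/-- basis vector -/
noncomputable def e (L : Fin 3) (k : ℕ) : Vec := fun L' => if L' = L then dl k else fun _ => 0

theorem fin_add1 (x : Fin 3) : x + 1 ≠ x ∧ x + 2 ≠ x ∧ x + 1 ≠ x + 2 ∧ x ≠ x + 1 ∧ x ≠ x + 2 ∧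
    x + 2 ≠ x + 1 := by
  fin_cases x <;> decide

theorem op_e_own (x : Fin 3) (k : ℕ) (c d : ℝ) (p q : ℕ) (hk : k ≠ 0)
    (h : ∀ i, dA (dl k) i = c * dl p i + d * dl q i) :
    op x (e x k) = c • e x p + d • e x q := by
  obtain ⟨h1, h2, h3, h4, h5, h6⟩ := fin_add1 x
  funext L i
  have h0 : e x k x 0 = 0 := by simp [e, dl, hk.symm]
  rcases leg_cases x L with rfl | rfl | rfl
  · rw [op_self, h0]
    simp [e, h]
  · rw [op_succ, h0]
    simp [e, dC_zero']
  · rw [op_succ2, h0]
    simp [e, dB_zero']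

theorem op_e_succ (x : Fin 3) (k : ℕ) (c d : ℝ) (p q : ℕ)
    (h : ∀ i, dC (dl k) i = c * dl p i + d * dl q i) :
    op x (e (x + 1) k) = c • e (x + 1) p + d • e (x + 1) q := by
  obtain ⟨h1, h2, h3, h4, h5, h6⟩ := fin_add1 x
  funext L i
  have h0 : e (x + 1) k x 0 = 0 := by simp [e]
  rcases leg_cases x L with rfl | rfl | rfl
  · rw [op_self, h0]
    simp [e, dA_zero']
  · rw [op_succ, h0]
    simp [e, h]
  · rw [op_succ2, h0]
    simp [e, h6, dB_zero']

theorem op_e_succ2 (x : Fin 3) (k : ℕ) (c d : ℝ) (p q : ℕ)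
    (h : ∀ i, dB (dl k) i = c * dl p i + d * dl q i) :
    op x (e (x + 2) k) = c • e (x + 2) p + d • e (x + 2) q := by
  obtain ⟨h1, h2, h3, h4, h5, h6⟩ := fin_add1 x
  funext L i
  have h0 : e (x + 2) k x 0 = 0 := by simp [e]
  rcases leg_cases x L with rfl | rfl | rfl
  · rw [op_self, h0]
    simp [e, dA_zero']
  · rw [op_succ, h0]
    simp [e, h3, dC_zero']
  · rw [op_succ2, h0]
    simp [e, h]

theorem sA_eq (i : ℕ) : sA i = -1 / 2 * dl 3 i + -1 / 2 * dl 4 i := by
  unfold sA dl
  split_ifs <;> first | (exfalso; omega) | norm_num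

theorem sC_eq (i : ℕ) : sC i = dl 0 i + dl 1 i - dl 2 i - dl 3 i := by
  unfold sC dl
  split_ifs <;> first | (exfalso; omega) | norm_num

theorem sB_eq (i : ℕ) : sB i = dl 0 i - dl 1 i + dl 2 i - dl 3 i := by
  unfold sB dl
  split_ifs <;> first | (exfalso; omega) | norm_num

theorem op_e_zero (x : Fin 3) :
    op x (e x 0) = (-1 / 2 : ℝ) • e x 3 + (-1 / 2 : ℝ) • e x 4
      + (e (x + 1) 0 + e (x + 1) 1 - e (x + 1) 2 - e (x + 1) 3)
      + (e (x + 2) 0 - e (x + 2) 1 + e (x + 2) 2 - e (x + 2) 3) := by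
  obtain ⟨h1, h2, h3, h4, h5, h6⟩ := fin_add1 x
  funext L i
  have h0 : e x 0 x 0 = 1 := by simp [e, dl]
  rcases leg_cases x L with rfl | rfl | rfl
  · rw [op_self, h0]
    simp [e, dA_dl_zero, sA_eq]
  · rw [op_succ, h0]
    simp [e, h3, dC_zero', sC_eq]
  · rw [op_succ2, h0]
    simp [e, h6, dB_zero', sB_eq]

theorem T_eq : T = ((3 : ℝ) • e 0 0 + (-2 : ℝ) • e 0 3 + (-1 : ℝ) • e 0 4)
    + ((3 : ℝ) • e 1 0 + (-2 : ℝ) • e 1 3 + (-1 : ℝ) • e 1 4)
    + ((3 : ℝ) • e 2 0 + (-2 : ℝ) • e 2 3 + (-1 : ℝ) • e 2 4) := by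
  funext L i
  have h : T L i = 3 * dl 0 i + -2 * dl 3 i + -1 * dl 4 i := by
    unfold T dl
    split_ifs <;> first | (exfalso; omega) | norm_num
  rw [h]
  fin_cases L <;> simp [e]

/-- value of the functional of the word `u` on a basis vector -/
noncomputable def val (u : List (Fin 3)) (L : Fin 3) (k : ℕ) : ℝ := Fh (act u (e L k))

theorem lin2 (u : List (Fin 3)) (c d : ℝ) (v w : Vec) :
    Fh (act u (c • v + d • w)) = c * Fh (act u v) + d * Fh (act u w) := by
  rw [act_add, act_smul, act_smul, Fh_add, Fh_smul, Fh_smul]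

theorem lin_add (u : List (Fin 3)) (v w : Vec) :
    Fh (act u (v + w)) = Fh (act u v) + Fh (act u w) := by
  rw [act_add, Fh_add]

theorem lin_sub (u : List (Fin 3)) (v w : Vec) :
    Fh (act u (v - w)) = Fh (act u v) - Fh (act u w) := by
  have : v - w = v + (-1 : ℝ) • w := by rw [neg_smul, one_smul, sub_eq_add_neg]
  rw [this, act_add, act_smul, Fh_add, Fh_smul]; ring

theorem lin_smul (u : List (Fin 3)) (c : ℝ) (v : Vec) :
    Fh (act u (c • v)) = c * Fh (act u v) := by
  rw [act_smul, Fh_smul]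

theorem val_append (u : List (Fin 3)) (x L : Fin 3) (k : ℕ) :
    val (u ++ [x]) L k = Fh (act u (op x (e L k))) := by
  unfold val
  rw [act_append]; rfl

theorem val_own_odd (u : List (Fin 3)) (x : Fin 3) (j : ℕ) :
    val (u ++ [x]) x (2 * j + 1) = (val u x (2 * j + 1) + val u x (2 * j + 2)) / 2 := by
  rw [val_append, op_e_own x _ _ _ _ _ (by omega) (dA_dl_odd j), lin2]; unfold val; ring

theorem val_own_even (u : List (Fin 3)) (x : Fin 3) (j : ℕ) :
    val (u ++ [x]) x (2 * j + 2) = -(val u x (2 * j + 1) + val u x (2 * j + 2)) / 2 := by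
  rw [val_append, op_e_own x _ _ _ _ _ (by omega) (dA_dl_even j), lin2]; unfold val; ring

theorem val_succ_even (u : List (Fin 3)) (x : Fin 3) (j : ℕ) :
    val (u ++ [x]) (x + 1) (2 * j) = (val u (x + 1) (2 * j) + val u (x + 1) (2 * j + 1)) / 2 := by
  rw [val_append, op_e_succ x _ _ _ _ _ (dC_dl_even j), lin2]; unfold val; ring

theorem val_succ_odd (u : List (Fin 3)) (x : Fin 3) (j : ℕ) :
    val (u ++ [x]) (x + 1) (2 * j + 1)
      = -(val u (x + 1) (2 * j) + val u (x + 1) (2 * j + 1)) / 2 := by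
  rw [val_append, op_e_succ x _ _ _ _ _ (dC_dl_odd j), lin2]; unfold val; ring

theorem val_succ2_even (u : List (Fin 3)) (x : Fin 3) (j : ℕ) :
    val (u ++ [x]) (x + 2) (2 * j) = (val u (x + 2) (2 * j) - val u (x + 2) (2 * j + 1)) / 2 := by
  rw [val_append, op_e_succ2 x _ _ _ _ _ (dB_dl_even j), lin2]; unfold val; ring

theorem val_succ2_odd (u : List (Fin 3)) (x : Fin 3) (j : ℕ) :
    val (u ++ [x]) (x + 2) (2 * j + 1)
      = (val u (x + 2) (2 * j) - val u (x + 2) (2 * j + 1)) / 2 := by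
  rw [val_append, op_e_succ2 x _ _ _ _ _ (dB_dl_odd j), lin2]; unfold val; ring

theorem val_own_zero (u : List (Fin 3)) (x : Fin 3) :
    val (u ++ [x]) x 0 = -(val u x 3 + val u x 4) / 2
      + (val u (x + 1) 0 + val u (x + 1) 1 - val u (x + 1) 2 - val u (x + 1) 3)
      + (val u (x + 2) 0 - val u (x + 2) 1 + val u (x + 2) 2 - val u (x + 2) 3) := by
  rw [val_append, op_e_zero]
  simp only [lin_add, lin_sub, lin_smul]
  unfold val
  ring

theorem Fw_val (u : List (Fin 3)) (l : Fin 3) :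
    Fw u = (3 * val u l 0 - 2 * val u l 3 - val u l 4)
      + (3 * val u (l + 1) 0 - 2 * val u (l + 1) 3 - val u (l + 1) 4)
      + (3 * val u (l + 2) 0 - 2 * val u (l + 2) 3 - val u (l + 2) 4) := by
  have h : Fw u = (3 * val u 0 0 - 2 * val u 0 3 - val u 0 4)
      + (3 * val u 1 0 - 2 * val u 1 3 - val u 1 4)
      + (3 * val u 2 0 - 2 * val u 2 3 - val u 2 4) := by
    unfold Fw
    rw [T_eq]
    simp only [lin_add, lin_smul]
    unfold val
    ring
  rw [h]
  fin_cases l <;> simp <;> ring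

/-- the functional of `u` vanishes after the letter `l` -/
def Kill (u : List (Fin 3)) (l : Fin 3) : Prop :=
  (∀ j, val u l (2 * j + 2) = -val u l (2 * j + 1)) ∧
  (∀ j, val u (l + 1) (2 * j + 1) = -val u (l + 1) (2 * j)) ∧
  (∀ j, val u (l + 2) (2 * j + 1) = val u (l + 2) (2 * j))

theorem kill_append (u : List (Fin 3)) (l : Fin 3) : Kill (u ++ [l]) l := by
  refine ⟨fun j => ?_, fun j => ?_, fun j => ?_⟩
  · rw [val_own_even, val_own_odd]; ring
  · rw [val_succ_odd, val_succ_even]; ring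
  · rw [val_succ2_odd, val_succ2_even]

/-- natural coordinates, first orientation (`m = l+1`, `n = l+2`) -/
noncomputable def natP (u : List (Fin 3)) (l : Fin 3) : Nt where
  A := fun j => if j = 0 then -val u l 0 else val u l (2 * j - 1)
  B := fun j => val u (l + 1) (2 * j)
  G := fun j => val u (l + 2) (2 * j)

/-- natural coordinates, second orientation (`m = l+2`, `n = l+1`) -/
noncomputable def natM (u : List (Fin 3)) (l : Fin 3) : Nt where
  A := fun j => if j = 0 then -val u l 0 else (-1 : ℝ) ^ j * val u l (2 * j - 1)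
  B := fun j => (-1 : ℝ) ^ j * val u (l + 2) (2 * j)
  G := fun j => (-1 : ℝ) ^ j * val u (l + 1) (2 * j)

theorem a1 (l : Fin 3) : l + 1 + 1 = l + 2 := by fin_cases l <;> rfl
theorem a2 (l : Fin 3) : l + 1 + 2 = l := by fin_cases l <;> rfl
theorem a3 (l : Fin 3) : l + 2 + 1 = l := by fin_cases l <;> rfl
theorem a4 (l : Fin 3) : l + 2 + 2 = l + 1 := by fin_cases l <;> rfl

theorem natP_C (u : List (Fin 3)) (l : Fin 3) (h : Kill u l) :
    natM (u ++ [l + 1]) (l + 1) = CN (natP u l) := by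
  obtain ⟨h1, h2, h3⟩ := h
  apply Nt.ext'
  · intro j
    rcases j with _ | j
    · have b := val_own_zero u (l + 1)
      rw [a1, a2] at b
      have c1 := h1 0; have c2 := h2 0; have c3 := h2 1; have c4 := h3 0; have c5 := h3 1
      simp only [mul_zero, zero_add, mul_one] at c1 c2 c3 c4 c5
      norm_num at c3 c5
      simp only [natM, natP, CN, if_true]
      norm_num
      rw [b, c1, c3, c4, c5]
      ring
    · have b := val_own_odd u (l + 1) j
      have c := h2 j
      simp only [natM, natP, CN, Nat.add_eq_zero_iff, one_ne_zero, and_false, if_false,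
        Nat.add_sub_cancel, show 2 * j + 2 - 1 = 2 * j + 1 by omega,
        show 2 * (j + 1) = 2 * j + 2 by ring]
      rw [b, c]
      ring
  · intro j
    have b := val_succ2_even u (l + 1) j
    rw [a2] at b
    simp only [natM, natP, CN, a2, b]
    rcases j with _ | j
    · simp; ring
    · have c := h1 j
      simp only [Nat.add_eq_zero_iff, one_ne_zero, and_false, if_false,
        show 2 * (j + 1 + 1) - 1 = 2 * (j + 1) + 1 by omega, show 2 * (j + 1) - 1 = 2 * j + 1 by omega]
      rw [show 2 * (j + 1) = 2 * j + 2 by ring, c]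
      ring
  · intro j
    have b := val_succ_even u (l + 1) j
    rw [a1] at b
    have c := h3 j
    simp only [natM, natP, CN, a1, b, c]
    ring

theorem natM_C (u : List (Fin 3)) (l : Fin 3) (h : Kill u l) :
    natP (u ++ [l + 2]) (l + 2) = CN (natM u l) := by
  obtain ⟨h1, h2, h3⟩ := h
  have hs : ∀ j : ℕ, (-1 : ℝ) ^ j * (-1 : ℝ) ^ j = 1 := fun j => by
    rw [← mul_pow]; norm_num
  apply Nt.ext'
  · intro j
    rcases j with _ | j
    · have b := val_own_zero u (l + 2)
      rw [a3, a4] at b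
      have c1 := h1 0; have c2 := h2 0; have c3 := h2 1; have c4 := h3 0; have c5 := h3 1
      simp only [mul_zero, zero_add, mul_one] at c1 c2 c3 c4 c5
      norm_num at c3 c5
      simp only [natM, natP, CN, if_true]
      norm_num
      rw [b, c1, c2, c3, c5]
      ring
    · have b := val_own_odd u (l + 2) j
      have c := h3 j
      simp only [natM, natP, CN, Nat.add_eq_zero_iff, one_ne_zero, and_false, if_false,
        Nat.add_sub_cancel, show 2 * j + 2 - 1 = 2 * j + 1 by omega,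
        show 2 * (j + 1) = 2 * j + 2 by ring]
      rw [b, c, pow_succ]
      linear_combination (-(val u (l + 2) (2 * j) + val u (l + 2) (2 * j + 2)) / 2) * hs j
  · intro j
    have b := val_succ_even u (l + 2) j
    rw [a3] at b
    simp only [natM, natP, CN, a3, b]
    rcases j with _ | j
    · simp; ring
    · have c := h1 j
      simp only [Nat.add_eq_zero_iff, one_ne_zero, and_false, if_false,
        show 2 * (j + 1 + 1) - 1 = 2 * (j + 1) + 1 by omega, show 2 * (j + 1) - 1 = 2 * j + 1 by omega]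
      rw [show 2 * (j + 1) = 2 * j + 2 by ring, c, pow_succ, pow_succ]
      linear_combination ((val u l (2 * j + 1) - val u l (2 * j + 2 + 1)) / 2) * hs j
  · intro j
    have b := val_succ2_even u (l + 2) j
    rw [a4] at b
    have c := h2 j
    simp only [natM, natP, CN, a4, b, c]
    linear_combination (-val u (l + 1) (2 * j)) * hs j

theorem natP_T (u : List (Fin 3)) (l : Fin 3) (h : Kill u l) :
    natP (u ++ [l + 2]) (l + 2) = TN (natP u l) := by
  obtain ⟨h1, h2, h3⟩ := h
  apply Nt.ext'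
  · intro j
    rcases j with _ | j
    · have b := val_own_zero u (l + 2)
      rw [a3, a4] at b
      have c1 := h1 0; have c2 := h2 0; have c3 := h2 1; have c4 := h3 0; have c5 := h3 1
      simp only [mul_zero, zero_add, mul_one] at c1 c2 c3 c4 c5
      norm_num at c3 c5
      simp only [natP, TN, if_true]
      norm_num
      rw [b, c1, c2, c3, c5]
      ring
    · have b := val_own_odd u (l + 2) j
      have c := h3 j
      simp only [natP, TN, Nat.add_eq_zero_iff, one_ne_zero, and_false, if_false,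
        Nat.add_sub_cancel, show 2 * j + 2 - 1 = 2 * j + 1 by omega,
        show 2 * (j + 1) = 2 * j + 2 by ring]
      rw [b, c]
  · intro j
    have b := val_succ_even u (l + 2) j
    rw [a3] at b
    simp only [natP, TN, a3, b]
    rcases j with _ | j
    · simp; ring
    · have c := h1 j
      simp only [Nat.add_eq_zero_iff, one_ne_zero, and_false, if_false,
        show 2 * (j + 1 + 1) - 1 = 2 * (j + 1) + 1 by omega, show 2 * (j + 1) - 1 = 2 * j + 1 by omega]
      rw [show 2 * (j + 1) = 2 * j + 2 by ring, c]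
      ring
  · intro j
    have b := val_succ2_even u (l + 2) j
    rw [a4] at b
    have c := h2 j
    simp only [natP, TN, a4, b, c]
    ring

theorem natM_T (u : List (Fin 3)) (l : Fin 3) (h : Kill u l) :
    natM (u ++ [l + 1]) (l + 1) = TN (natM u l) := by
  obtain ⟨h1, h2, h3⟩ := h
  apply Nt.ext'
  · intro j
    rcases j with _ | j
    · have b := val_own_zero u (l + 1)
      rw [a1, a2] at b
      have c1 := h1 0; have c2 := h2 0; have c3 := h2 1; have c4 := h3 0; have c5 := h3 1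
      simp only [mul_zero, zero_add, mul_one] at c1 c2 c3 c4 c5
      norm_num at c3 c5
      simp only [natM, TN, if_true]
      norm_num
      rw [b, c1, c3, c4, c5]
      ring
    · have b := val_own_odd u (l + 1) j
      have c := h2 j
      simp only [natM, TN, Nat.add_eq_zero_iff, one_ne_zero, and_false, if_false,
        Nat.add_sub_cancel, show 2 * j + 2 - 1 = 2 * j + 1 by omega,
        show 2 * (j + 1) = 2 * j + 2 by ring]
      rw [b, c]
      ring
  · intro j
    have b := val_succ2_even u (l + 1) j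
    rw [a2] at b
    simp only [natM, TN, a2, b]
    rcases j with _ | j
    · simp; ring
    · have c := h1 j
      simp only [Nat.add_eq_zero_iff, one_ne_zero, and_false, if_false,
        show 2 * (j + 1 + 1) - 1 = 2 * (j + 1) + 1 by omega, show 2 * (j + 1) - 1 = 2 * j + 1 by omega]
      rw [show 2 * (j + 1) = 2 * j + 2 by ring, c]
      ring
  · intro j
    have b := val_succ_even u (l + 1) j
    rw [a1] at b
    have c := h3 j
    simp only [natM, TN, a1, b, c]
    ring

theorem val_nil (L : Fin 3) (k : ℕ) : val [] L k = dl k 0 := by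
  unfold val
  rw [act_nil]
  fin_cases L <;> simp [Fh, e]

theorem Fw_natP (u : List (Fin 3)) (l : Fin 3) (h : Kill u l) : Fw u = (Phi (natP u l)).F := by
  obtain ⟨h1, h2, h3⟩ := h
  have c1 := h1 1; have c2 := h2 1; have c3 := h3 1
  norm_num at c1 c2 c3
  rw [Fw_val u l, c1, c2, c3]
  simp only [Phi, natP]
  norm_num
  ring

theorem Fw_natM (u : List (Fin 3)) (l : Fin 3) (h : Kill u l) : Fw u = (Phi (natM u l)).F := by
  obtain ⟨h1, h2, h3⟩ := h
  have c1 := h1 1; have c2 := h2 1; have c3 := h3 1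
  norm_num at c1 c2 c3
  rw [Fw_val u l, c1, c2, c3]
  simp only [Phi, natM]
  norm_num
  ring

/-- natural coordinates of a single letter -/
noncomputable def n0 : Nt where
  A := fun j => if j = 0 then -2 else 0
  B := fun j => if j = 0 then 1 / 2 else 0
  G := fun j => if j = 0 then 1 / 2 else 0

theorem R1_n0 : R1 n0 := by simp only [R1, n0]; norm_num
theorem R2_n0 : R2 n0 := by simp only [R2, n0]; norm_num

theorem Phi_n0 : Phi n0 = x0 := by
  apply St.ext'
  · simp only [Phi, n0, x0]; norm_num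
  · intro s
    rcases s with _ | _ | s
    · simp only [Phi, n0, x0]; norm_num
    · simp only [Phi, n0, x0]; norm_num
    obtain ⟨j, rfl | rfl⟩ : ∃ j, s = 2 * j ∨ s = 2 * j + 1 := ⟨s / 2, by omega⟩
    · rw [Phi_f_even]
      rcases j with _ | j
      · simp [n0, x0]
      · have e1 : 2 * (j + 1) + 1 + 1 ≠ 3 := by omega
        simp [n0, x0]
    · have e0 : 2 * j + 1 + 1 + 1 = 2 * j + 3 := by ring
      rw [e0, Phi_f_odd]
      rcases j with _ | j
      · simp [n0, x0]; norm_num
      · simp [n0, x0]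
  · intro j
    rcases j with _ | _ | j
    · simp [Phi, x0]
    · simp only [Phi, n0, x0]; norm_num
    · rw [Phi_g]
      rcases j with _ | j
      · simp [n0, x0]; norm_num
      · simp [n0, x0]

theorem val_single_zero (l : Fin 3) : val [l] l 0 = 2 := by
  have := val_own_zero [] l
  simp only [List.nil_append, val_nil] at this
  rw [this]
  simp [dl]
  norm_num

theorem val_single_own (l : Fin 3) (j : ℕ) : val [l] l (2 * j + 1) = 0 := by
  have := val_own_odd [] l j
  simp only [List.nil_append, val_nil] at this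
  rw [this]
  simp [dl]

theorem val_single_succ (l : Fin 3) (j : ℕ) :
    val [l] (l + 1) (2 * j) = if j = 0 then 1 / 2 else 0 := by
  have := val_succ_even [] l j
  simp only [List.nil_append, val_nil] at this
  rw [this]
  rcases j with _ | j <;> simp [dl]

theorem val_single_succ2 (l : Fin 3) (j : ℕ) :
    val [l] (l + 2) (2 * j) = if j = 0 then 1 / 2 else 0 := by
  have := val_succ2_even [] l j
  simp only [List.nil_append, val_nil] at this
  rw [this]
  rcases j with _ | j <;> simp [dl]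

theorem natP_single (l : Fin 3) : natP [l] l = n0 := by
  apply Nt.ext'
  · intro j
    rcases j with _ | j
    · simp [natP, n0, val_single_zero]
    · simp only [natP, n0, Nat.add_eq_zero_iff, one_ne_zero, and_false, if_false,
        show 2 * (j + 1) - 1 = 2 * j + 1 by omega]
      exact val_single_own l j
  · intro j
    simp only [natP, n0]
    exact val_single_succ l j
  · intro j
    simp only [natP, n0]
    exact val_single_succ2 l j

/-- invariant of the induction -/
def Inv (K : Set St) (u : List (Fin 3)) : Prop :=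
  (∀ v, Fh (act u v) = 0) ∨ u = [] ∨ ∃ l : Fin 3, (∀ v, Fh (act u (op l v)) = 0) ∧ Kill u l ∧
    ((R1 (natP u l) ∧ R2 (natP u l) ∧ Phi (natP u l) ∈ K) ∨
     (R1 (natM u l) ∧ R2 (natM u l) ∧ Phi (natM u l) ∈ K))

theorem inv_all (K : Set St) (h0 : x0 ∈ K) (hC : ∀ x ∈ K, Cs x ∈ K) (hT : ∀ x ∈ K, Ts x ∈ K)
    (u : List (Fin 3)) : Inv K u := by
  induction u using List.reverseRecOn with
  | nil => exact Or.inr (Or.inl rfl)
  | append_singleton u x ih =>
    have hop : ∀ v, Fh (act (u ++ [x]) (op x v)) = 0 := by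
      intro v
      rw [act_append]
      have : act [x] (op x v) = op x (op x v) := rfl
      rw [this, op_op, act_zero, Fh_zero]
    rcases ih with hz | rfl | ⟨l, hl, hk, hK⟩
    · left
      intro v
      rw [act_append]
      exact hz _
    · right; right
      rw [List.nil_append] at hop ⊢
      refine ⟨x, hop, kill_append [] x, Or.inl ?_⟩
      rw [natP_single]
      exact ⟨R1_n0, R2_n0, by rw [Phi_n0]; exact h0⟩
    · rcases leg_cases l x with rfl | rfl | rfl
      · left
        intro v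
        rw [act_append]
        exact hl v
      · right; right
        refine ⟨l + 1, hop, kill_append u (l + 1), ?_⟩
        rcases hK with ⟨r1, r2, hK⟩ | ⟨r1, r2, hK⟩
        · right
          rw [natP_C u l hk]
          exact ⟨R1_CN _, R2_CN _ r1, by rw [Phi_CN _ r1 r2]; exact hC _ hK⟩
        · right
          rw [natM_T u l hk]
          exact ⟨R1_TN _, R2_TN _ r1, by rw [Phi_TN _ r1 r2]; exact hT _ hK⟩
      · right; right
        refine ⟨l + 2, hop, kill_append u (l + 2), ?_⟩
        rcases hK with ⟨r1, r2, hK⟩ | ⟨r1, r2, hK⟩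
        · left
          rw [natP_T u l hk]
          exact ⟨R1_TN _, R2_TN _ r1, by rw [Phi_TN _ r1 r2]; exact hT _ hK⟩
        · left
          rw [natM_C u l hk]
          exact ⟨R1_CN _, R2_CN _ r1, by rw [Phi_CN _ r1 r2]; exact hC _ hK⟩

/-- **Reduction**: positivity of all weights from an invariant set of the C/T dynamics -/
theorem Fw_nonneg_of (K : Set St) (h0 : x0 ∈ K) (hC : ∀ x ∈ K, Cs x ∈ K)
    (hT : ∀ x ∈ K, Ts x ∈ K) (hF : ∀ x ∈ K, 0 ≤ x.F) : ∀ w, 0 ≤ Fw w := by
  intro w
  rcases inv_all K h0 hC hT w with hz | rfl | ⟨l, -, hk, ⟨-, -, hK⟩ | ⟨-, -, hK⟩⟩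
  · have : Fw w = 0 := hz T
    rw [this]
  · rw [Fw_nil]; norm_num
  · rw [Fw_natP w l hk]; exact hF _ hK
  · rw [Fw_natM w l hk]; exact hF _ hK

end Pool.H71.Red
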